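import Pool.Agent.H18.IC.Triple

set_option autoImplicit false

namespace Pool.Agent.H18.IC

open Matrix Polynomial Kronecker

variable {R : Type} [CommRing R]

/-- The Jordan block of size `r`. -/
def J0 (R : Type) [CommRing R] (r : ℕ) : Matrix (Fin r) (Fin r) R :=
  fun i j => if (j : ℕ) = i then 1 else if (j : ℕ) = i + 1 then 1 else 0

theorem J0_tri (r : ℕ) : (J0 R r).BlockTriangular id := by
  intro i j hij
  simp only [id] at hij
  have : (j : ℕ) < i := hij
  simp only [J0]
  rw [if_neg (by omega), if_neg (by omega)]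

theorem J0_charpoly (r : ℕ) : (J0 R r).charpoly = (X - 1) ^ r := by
  rw [Matrix.charpoly_of_upperTriangular _ (J0_tri r)]
  simp [J0]

theorem J0_det (r : ℕ) : (J0 R r).det = 1 := by
  rw [Matrix.det_of_upperTriangular (J0_tri r)]
  simp [J0]

/-- The reversal matrix. -/
def Rv (R : Type) [CommRing R] (r : ℕ) : Matrix (Fin r) (Fin r) R :=
  fun i j => if (i : ℕ) + j + 1 = r then 1 else 0

theorem Rv_mul {r : ℕ} (M : Matrix (Fin r) (Fin r) R) (i j : Fin r) :
    (Rv R r * M) i j = M (Fin.rev i) j := by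
  rw [Matrix.mul_apply, Finset.sum_eq_single (Fin.rev i)]
  · have : (i : ℕ) + (Fin.rev i : Fin r) + 1 = r := by rw [Fin.val_rev]; omega
    rw [Rv, if_pos this, one_mul]
  · intro l _ hl
    rw [Rv, if_neg, zero_mul]
    intro h
    apply hl
    ext
    rw [Fin.val_rev]; omega
  · intro h; exact absurd (Finset.mem_univ _) h

theorem mul_Rv {r : ℕ} (M : Matrix (Fin r) (Fin r) R) (i j : Fin r) :
    (M * Rv R r) i j = M i (Fin.rev j) := by
  rw [Matrix.mul_apply, Finset.sum_eq_single (Fin.rev j)]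
  · have : ((Fin.rev j : Fin r) : ℕ) + j + 1 = r := by rw [Fin.val_rev]; omega
    rw [Rv, if_pos this, mul_one]
  · intro l _ hl
    rw [Rv, if_neg, mul_zero]
    intro h
    apply hl
    ext
    rw [Fin.val_rev]; omega
  · intro h; exact absurd (Finset.mem_univ _) h

theorem Rv_sq (r : ℕ) : Rv R r * Rv R r = 1 := by
  ext i j
  rw [Rv_mul, Rv, Matrix.one_apply]
  by_cases h : i = j
  · subst h
    rw [if_pos rfl, if_pos]
    rw [Fin.val_rev]; omega
  · rw [if_neg h, if_neg]
    intro h'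
    apply h
    ext
    rw [Fin.val_rev] at h'
    omega

theorem J0_conj (r : ℕ) : Cj (J0 R r) (J0 R r)ᵀ := by
  refine ⟨⟨Rv R r, Rv R r, Rv_sq r, Rv_sq r⟩, ?_⟩
  show Rv R r * J0 R r = (J0 R r)ᵀ * Rv R r
  ext i j
  rw [Rv_mul, mul_Rv, Matrix.transpose_apply]
  simp only [J0, Fin.val_rev]
  split_ifs <;> first | rfl | omega

/-- Tensoring with the identity. -/
def kr (R : Type) [CommRing R] (r k : ℕ) :
    Matrix (Fin r) (Fin r) R →ₐ[R] Matrix (Fin r × Fin k) (Fin r × Fin k) R :=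
  AlgHom.ofLinearMap
    { toFun := fun A => A ⊗ₖ (1 : Matrix (Fin k) (Fin k) R)
      map_add' := fun A B => add_kronecker A B 1
      map_smul' := fun a A => smul_kronecker a A 1 }
    (by show (1 : Matrix (Fin r) (Fin r) R) ⊗ₖ (1 : Matrix (Fin k) (Fin k) R) = 1
        exact one_kronecker_one)
    (by intro A B
        show (A * B) ⊗ₖ (1 : Matrix (Fin k) (Fin k) R) = (A ⊗ₖ 1) * (B ⊗ₖ 1)
        rw [← mul_kronecker_mul, Matrix.one_mul])

theorem kr_apply {r k : ℕ} (A : Matrix (Fin r) (Fin r) R) : kr R r k A = A ⊗ₖ 1 := rfl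

theorem kr_mul {r k : ℕ} {n : Type} (A : Matrix (Fin r) (Fin r) R)
    (K : Matrix (Fin r × Fin k) n R) (i : Fin r) (a : Fin k) (l : n) :
    (kr R r k A * K) (i, a) l = ∑ j, A i j * K (j, a) l := by
  rw [Matrix.mul_apply, Fintype.sum_prod_type]
  refine Finset.sum_congr rfl fun j _ => ?_
  rw [Finset.sum_eq_single a]
  · rw [kr_apply, kroneckerMap_apply, Matrix.one_apply_eq, mul_one]
  · intro b _ hb
    rw [kr_apply, kroneckerMap_apply, Matrix.one_apply_ne (Ne.symm hb), mul_zero, zero_mul]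
  · intro h; exact absurd (Finset.mem_univ _) h

/-- Unit versions. -/
theorem J0_unit (r : ℕ) : IsUnit (J0 R r) :=
  (Matrix.isUnit_iff_isUnit_det _).2 (by rw [J0_det]; exact isUnit_one)

theorem J0t_unit (r : ℕ) : IsUnit (J0 R r)ᵀ :=
  (Matrix.isUnit_iff_isUnit_det _).2 (by rw [Matrix.det_transpose, J0_det]; exact isUnit_one)

theorem J0_kill (r k : ℕ) : aeval (kr R r k (J0 R r)) ((X - 1) ^ r : R[X]) = 0 := by
  rw [aeval_algHom_apply, ← J0_charpoly, Matrix.aeval_self_charpoly, map_zero]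

theorem J0t_kill (r k : ℕ) : aeval (kr R r k (J0 R r)ᵀ) ((X - 1) ^ r : R[X]) = 0 := by
  rw [aeval_algHom_apply, ← J0_charpoly, ← Matrix.charpoly_transpose, Matrix.aeval_self_charpoly,
    map_zero]

theorem Cj_map {A B : Type} [Ring A] [Ring B] [Algebra R A] [Algebra R B] (f : A →ₐ[R] B)
    {a a' : A} (h : Cj a a') : Cj (f a) (f a') := by
  obtain ⟨E, h⟩ := h
  refine ⟨Units.map f.toRingHom.toMonoidHom E, ?_⟩
  show f E * f a = f a' * f E
  rw [← map_mul, ← map_mul, h.eq]

/-- `X^i - X^(i-1) + ...`. -/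
noncomputable def Hp (R : Type) [CommRing R] : ℕ → R[X]
  | 0 => 1
  | i + 1 => X ^ (i + 1) - Hp R i

theorem Hp_natDegree (i : ℕ) : (Hp R i).natDegree ≤ i := by
  induction i with
  | zero => simp [Hp]
  | succ i ih =>
    rw [Hp]
    refine (natDegree_sub_le _ _).trans (max_le (natDegree_X_pow_le _) (ih.trans (Nat.le_succ _)))

theorem Hp_coeff (i : ℕ) : (Hp R i).coeff 0 = (-1) ^ i := by
  induction i with
  | zero => simp [Hp]
  | succ i ih =>
    rw [Hp, coeff_sub, ih, coeff_X_pow, if_neg (by omega), pow_succ]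
    ring

theorem exists_Q (r : ℕ) : ∃ Q : R[X], Q.natDegree ≤ r + 1 ∧
    Hp R (r + 1) * (X ^ 2 - 3 * X + 1) = X ^ (r + 3) + C ((-1) ^ (r + 1)) + X * Q := by
  set P : R[X] := Hp R (r + 1) * (X ^ 2 - 3 * X + 1) - X ^ (r + 3) - C ((-1) ^ (r + 1)) with hP
  have h0 : P.coeff 0 = 0 := by
    rw [hP, coeff_sub, coeff_sub, mul_coeff_zero, Hp_coeff, coeff_C_zero, coeff_X_pow,
      if_neg (by omega)]
    simp
  have hd : P.natDegree ≤ r + 2 := by
    have e : P = -(Hp R r * (X ^ 2 - 3 * X + 1)) + X ^ (r + 1) * (-3 * X + 1)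
        - C ((-1) ^ (r + 1)) := by
      rw [hP, Hp]; ring
    rw [e]
    have h2 : (X ^ 2 - 3 * X + 1 : R[X]).natDegree ≤ 2 := by compute_degree
    have h3 : (-3 * X + 1 : R[X]).natDegree ≤ 1 := by compute_degree
    have h4 : (Hp R r * (X ^ 2 - 3 * X + 1) : R[X]).natDegree ≤ r + 2 :=
      natDegree_mul_le.trans (add_le_add (Hp_natDegree r) h2)
    have h5 : (X ^ (r + 1) * (-3 * X + 1) : R[X]).natDegree ≤ (r + 1) + 1 :=
      natDegree_mul_le.trans (add_le_add (natDegree_X_pow_le _) h3)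
    refine (natDegree_sub_le _ _).trans (max_le ((natDegree_add_le _ _).trans (max_le ?_ ?_)) ?_)
    · rw [natDegree_neg]
      exact h4
    · exact h5
    · rw [natDegree_C]; omega
  refine ⟨P.divX, ?_, ?_⟩
  · rw [natDegree_divX_eq_natDegree_tsub_one]; omega
  · have := X_mul_divX_add P
    rw [h0, C_0, add_zero] at this
    rw [this, hP]; ring

/-- The rows of `U`, `U C`, ..., `U C^(s-1)`. -/
def Kry {k : ℕ} {n : Type} [Fintype n] [DecidableEq n] (C : Matrix n n R) (U : Matrix (Fin k) n R)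
    (s : ℕ) : Matrix (Fin s × Fin k) n R :=
  Matrix.of fun p j => (U * C ^ (p.1 : ℕ)) p.2 j

section
variable {k : ℕ} {n : Type} [Fintype n] [DecidableEq n] (C : Matrix n n R) (U : Matrix (Fin k) n R)

/-- The rows of `U h_i(C)`. -/
noncomputable def Kh (s : ℕ) : Matrix (Fin s × Fin k) n R :=
  Matrix.of fun p j => (U * aeval C (Hp R p.1)) p.2 j

/-- The last block. -/
def EE (R : Type) [CommRing R] (s k : ℕ) : Matrix (Fin s × Fin k) (Fin k) R :=
  Matrix.of fun p b => if (p.1 : ℕ) + 1 = s ∧ p.2 = b then 1 else 0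

theorem EE_mul (s : ℕ) (M : Matrix (Fin k) n R) (i : Fin s) (a : Fin k) (l : n) :
    (EE R s k * M) (i, a) l = if (i : ℕ) + 1 = s then M a l else 0 := by
  rw [Matrix.mul_apply, Finset.sum_eq_single a]
  · simp only [EE, Matrix.of_apply]
    split_ifs with h1 h2 h2
    · rw [one_mul]
    · exact absurd h1.1 h2
    · exact absurd ⟨h2, trivial⟩ h1
    · rw [zero_mul]
  · intro b _ hb
    simp only [EE, Matrix.of_apply]
    rw [if_neg, zero_mul]
    rintro ⟨_, h⟩; exact hb h.symm
  · intro h; exact absurd (Finset.mem_univ _) h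

theorem Hp_aeval (i : ℕ) : aeval C (Hp R (i + 1)) + aeval C (Hp R i) = C ^ (i + 1) := by
  rw [Hp, map_sub, map_pow, aeval_X]; abel

theorem F1 (s : ℕ) : kr R s k (J0 R s)ᵀ * Kh C U s = Kry C U s := by
  ext ⟨i, a⟩ l
  rw [kr_mul]
  rcases i with ⟨i, hi⟩
  rcases i with _ | i
  · rw [Finset.sum_eq_single ⟨0, hi⟩]
    · simp [J0, Kh, Kry, Hp]
    · intro b _ hb
      rw [Matrix.transpose_apply, J0, if_neg, if_neg, zero_mul]
      · simp
      · intro h; apply hb; ext; simpa using h.symm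
    · intro h; exact absurd (Finset.mem_univ _) h
  · have hne : (⟨i + 1, hi⟩ : Fin s) ≠ ⟨i, by omega⟩ := by
      intro h; have := congrArg Fin.val h; simp at this
    rw [Finset.sum_eq_add (⟨i + 1, hi⟩ : Fin s) ⟨i, by omega⟩ hne]
    · simp only [Matrix.transpose_apply, J0, Kh, Kry, Matrix.of_apply]
      rw [if_pos trivial, if_neg (by omega), if_pos trivial, one_mul, one_mul, ← Hp_aeval C i,
        Matrix.mul_add, Matrix.add_apply]
    · intro b _ hb
      rw [Matrix.transpose_apply, J0, if_neg, if_neg, zero_mul]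
      · intro h; apply hb.2; ext; simp only at h ⊢; omega
      · intro h; apply hb.1; ext; simp only at h ⊢; omega
    · intro h; exact absurd (Finset.mem_univ _) h
    · intro h; exact absurd (Finset.mem_univ _) h

theorem F2 (s : ℕ) : kr R s k (J0 R s) * Kh C U s + EE R s k * (U * aeval C (Hp R s)) =
    Kry C U s * C := by
  ext ⟨i, a⟩ l
  have hK : (Kry C U s * C) (i, a) l = (U * C ^ ((i : ℕ) + 1)) a l := by
    rw [pow_succ, ← Matrix.mul_assoc, Matrix.mul_apply, Matrix.mul_apply]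
    rfl
  rw [hK, Matrix.add_apply, kr_mul, EE_mul, ← Hp_aeval C i, Matrix.mul_add, Matrix.add_apply]
  by_cases h : (i : ℕ) + 1 = s
  · rw [if_pos h, Finset.sum_eq_single i]
    · simp only [J0, Kh, Matrix.of_apply, if_true, one_mul]
      rw [h, add_comm]
    · intro b _ hb
      rw [J0, if_neg, if_neg, zero_mul]
      · have := b.2; omega
      · intro h; apply hb; ext; exact h
    · intro h; exact absurd (Finset.mem_univ _) h
  · have hi : (i : ℕ) + 1 < s := by have := i.2; omega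
    have hne : i ≠ (⟨(i : ℕ) + 1, hi⟩ : Fin s) := by
      intro h; have := congrArg Fin.val h; simp at this
    rw [if_neg h, add_zero, Finset.sum_eq_add i (⟨(i : ℕ) + 1, hi⟩ : Fin s) hne]
    · simp only [J0, Kh, Matrix.of_apply]
      rw [if_pos trivial, if_neg (by omega), if_pos trivial, one_mul, one_mul, add_comm]
    · intro b _ hb
      rw [J0, if_neg, if_neg, zero_mul]
      · intro h; apply hb.2; ext; exact h
      · intro h; apply hb.1; ext; exact h
    · intro h; exact absurd (Finset.mem_univ _) h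
    · intro h; exact absurd (Finset.mem_univ _) h

end

end Pool.Agent.H18.IC
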