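import Pool.Agent.H18.IC.BlockCyc

set_option autoImplicit false

namespace Pool.Agent.H18.IC

open Matrix Polynomial Kronecker

variable {R : Type} [CommRing R]

theorem rdiag_conj {m l : Type} [Fintype m] [DecidableEq m] [Fintype l] [DecidableEq l]
    {X D : Matrix m m R} {Y M : Matrix l l R} (h1 : Cj X D) (h2 : Cj Y M) :
    Cj (fromBlocks X 0 0 Y) (fromBlocks D 0 0 M) := by
  obtain ⟨G, h1⟩ := h1
  obtain ⟨L, h2⟩ := h2
  refine ⟨rdiagU G L, ?_⟩
  show fromBlocks G.val 0 0 L.val * fromBlocks X 0 0 Y = fromBlocks D 0 0 M * fromBlocks G.val 0 0 L.val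
  rw [fromBlocks_multiply, fromBlocks_multiply]
  have e1 : G.val * X = D * G.val := h1
  have e2 : L.val * Y = M * L.val := h2
  simp [e1, e2]

theorem tri_inv {a b : Type} [Fintype a] [DecidableEq a] [Fintype b] [DecidableEq b]
    (x : Matrix b a R) (Z Zi : Matrix b b R) (hZ : Z * Zi = 1) :
    fromBlocks (1 : Matrix a a R) 0 x Z * fromBlocks 1 0 (-(Zi * x)) Zi = 1 := by
  rw [fromBlocks_multiply, ← fromBlocks_one]
  congr 1
  · simp
  · simp
  · rw [Matrix.mul_one, Matrix.mul_neg, ← Matrix.mul_assoc, hZ, Matrix.one_mul, add_neg_cancel]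
  · simp [hZ]

theorem tri_inv' {a b : Type} [Fintype a] [DecidableEq a] [Fintype b] [DecidableEq b]
    (x : Matrix b a R) (Z Zi : Matrix b b R) (hZ : Zi * Z = 1) :
    fromBlocks (1 : Matrix a a R) 0 (-(Zi * x)) Zi * fromBlocks 1 0 x Z = 1 := by
  rw [fromBlocks_multiply, ← fromBlocks_one]
  congr 1
  · simp
  · simp
  · simp
  · simp [hZ]

variable {k : ℕ} {n : Type} [Fintype n] [DecidableEq n]

theorem EEt_mul (s : ℕ) (K : Matrix (Fin (s + 1) × Fin k) n R) :
    (EE R (s + 1) k)ᵀ * K = Matrix.of fun a l => K (Fin.last s, a) l := by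
  ext a l
  rw [Matrix.mul_apply, Fintype.sum_prod_type, Finset.sum_eq_single (Fin.last s)]
  · rw [Finset.sum_eq_single a]
    · simp [EE]
    · intro b _ hb
      simp [EE, hb]
    · intro h; exact absurd (Finset.mem_univ _) h
  · intro i _ hi
    apply Finset.sum_eq_zero
    intro b _
    have : ¬ ((i : ℕ) + 1 = s + 1 ∧ b = a) := by
      rintro ⟨h, _⟩
      apply hi; ext; rw [Fin.val_last]; omega
    simp only [EE, Matrix.transpose_apply, Matrix.of_apply]
    rw [if_neg this, zero_mul]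
  · intro h; exact absurd (Finset.mem_univ _) h

theorem GG_mul (s : ℕ) (C : Matrix n n R) (U : Matrix (Fin k) n R)
    (γ : ℕ → Matrix (Fin k) (Fin k) R) :
    (Matrix.of fun (a : Fin k) (p : Fin s × Fin k) => γ p.1 a p.2) * Kry C U s =
      ∑ i ∈ Finset.range s, γ i * (U * C ^ i) := by
  ext a l
  rw [Matrix.mul_apply, Fintype.sum_prod_type, Matrix.sum_apply, Finset.sum_range]
  refine Finset.sum_congr rfl fun i _ => ?_
  rw [Matrix.mul_apply]
  rfl

/-- The coefficient identity. -/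
theorem coef (r : ℕ) (C : Matrix n n R) (U : Matrix (Fin k) n R)
    (V : ℕ → Matrix (Fin k) (Fin k) R)
    (hC : U * C ^ (r + 3) = (-1 : R) ^ (r + 2) • U + ∑ i ∈ Finset.range (r + 2), V i * (U * C ^ (i + 1))) :
    ∃ γ : ℕ → Matrix (Fin k) (Fin k) R,
      U * aeval C (Hp R (r + 1)) * C * C - (U * aeval C (Hp R (r + 1)) * C +
        U * aeval C (Hp R (r + 1)) * C + U * aeval C (Hp R (r + 1)) * C) +
        U * aeval C (Hp R (r + 1)) = ∑ i ∈ Finset.range (r + 2), γ i * (U * C ^ (i + 1)) := by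
  obtain ⟨Q, hQd, hQ⟩ := exists_Q (R := R) r
  refine ⟨fun i => V i + Q.coeff i • 1, ?_⟩
  have h1 := congrArg (fun P => U * aeval C P) hQ
  simp only [map_mul, map_add, map_sub, map_pow, aeval_X, map_one, aeval_C, map_ofNat] at h1
  rw [aeval_eq_sum_range' (show Q.natDegree < r + 2 by omega)] at h1
  have h3 : (3 : Matrix n n R) * C = C + C + C := by noncomm_ring
  rw [h3] at h1
  have h4 : U * (aeval C (Hp R (r + 1)) * (C ^ 2 - (C + C + C) + 1)) =
      U * aeval C (Hp R (r + 1)) * C * C - (U * aeval C (Hp R (r + 1)) * C +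
        U * aeval C (Hp R (r + 1)) * C + U * aeval C (Hp R (r + 1)) * C) +
        U * aeval C (Hp R (r + 1)) := by
    rw [← Matrix.mul_assoc, Matrix.mul_add, Matrix.mul_sub, Matrix.mul_add, Matrix.mul_add,
      Matrix.mul_one, pow_two, ← Matrix.mul_assoc]
  rw [← h4, h1, Matrix.mul_add, Matrix.mul_add, hC]
  have h5 : U * (algebraMap R (Matrix n n R) ((-1) ^ (r + 1))) = (-1 : R) ^ (r + 1) • U := by
    rw [Algebra.algebraMap_eq_smul_one, Matrix.mul_smul, Matrix.mul_one]
  have h6 : U * (C * ∑ i ∈ Finset.range (r + 2), Q.coeff i • C ^ i) =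
      ∑ i ∈ Finset.range (r + 2), Q.coeff i • (U * C ^ (i + 1)) := by
    rw [Finset.mul_sum, Matrix.mul_sum]
    refine Finset.sum_congr rfl fun i _ => ?_
    rw [mul_smul_comm, Matrix.mul_smul, ← pow_succ']
  have h7 : algebraMap R (Matrix n n R) (-1) ^ (r + 1) = algebraMap R (Matrix n n R) ((-1) ^ (r + 1)) :=
    (map_pow _ _ _).symm
  try rw [h7]
  rw [h5, h6]
  have h8 : ∀ i ∈ Finset.range (r + 2), (V i + Q.coeff i • (1 : Matrix (Fin k) (Fin k) R)) *
      (U * C ^ (i + 1)) = V i * (U * C ^ (i + 1)) + Q.coeff i • (U * C ^ (i + 1)) := by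
    intro i _
    rw [Matrix.add_mul, Matrix.smul_mul, Matrix.one_mul]
  rw [Finset.sum_congr rfl h8, Finset.sum_add_distrib]
  have h9 : (-1 : R) ^ (r + 2) • U + (-1 : R) ^ (r + 1) • U = 0 := by
    rw [← add_smul, pow_succ]; simp
  calc (-1 : R) ^ (r + 2) • U + ∑ i ∈ Finset.range (r + 2), V i * (U * C ^ (i + 1)) +
        (-1 : R) ^ (r + 1) • U + ∑ i ∈ Finset.range (r + 2), Q.coeff i • (U * C ^ (i + 1))
      = ((-1 : R) ^ (r + 2) • U + (-1 : R) ^ (r + 1) • U) +
        (∑ i ∈ Finset.range (r + 2), V i * (U * C ^ (i + 1)) +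
          ∑ i ∈ Finset.range (r + 2), Q.coeff i • (U * C ^ (i + 1))) := by abel
    _ = _ := by rw [h9, zero_add]

end Pool.Agent.H18.IC
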