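import Pool.Agent.H18.IC.BlockCyc3

set_option autoImplicit false

namespace Pool.Agent.H18.IC

open Matrix Polynomial Kronecker

variable {R : Type} [CommRing R] {k : ℕ} {n : Type} [Fintype n] [DecidableEq n]

theorem Hp_top (i : ℕ) : (Hp R i).coeff i = 1 := by
  cases i with
  | zero => simp [Hp]
  | succ i =>
    rw [Hp, coeff_sub, coeff_X_pow, if_pos rfl, coeff_eq_zero_of_natDegree_lt, sub_zero]
    exact lt_of_le_of_lt (Hp_natDegree i) (Nat.lt_succ_self i)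

/-- The coefficient identity. -/
theorem coefW (r : ℕ) (C : Matrix n n R) (U : Matrix (Fin k) n R) (W u : Matrix (Fin k) (Fin k) R)
    (V : ℕ → Matrix (Fin k) (Fin k) R)
    (hC : U * C ^ (r + 3) = (-1 : R) ^ (r + 2) • (W * U) +
      ∑ i ∈ Finset.range (r + 2), V i * (U * C ^ (i + 1))) :
    ∃ γ : ℕ → Matrix (Fin k) (Fin k) R,
      U * aeval C (Hp R (r + 1)) * C * C - u * (U * aeval C (Hp R (r + 1)) * C) +
        W * (U * aeval C (Hp R (r + 1))) = ∑ i ∈ Finset.range (r + 2), γ i * (U * C ^ (i + 1)) := by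
  let φ : (ℕ → Matrix (Fin k) (Fin k) R) →ₗ[R] Matrix (Fin k) n R :=
    { toFun := fun γ => ∑ i ∈ Finset.range (r + 2), γ i * (U * C ^ (i + 1))
      map_add' := fun γ γ' => by
        rw [← Finset.sum_add_distrib]
        exact Finset.sum_congr rfl fun i _ => by rw [Pi.add_apply, Matrix.add_mul]
      map_smul' := fun a γ => by
        rw [Finset.smul_sum]
        exact Finset.sum_congr rfl fun i _ => by
          rw [Pi.smul_apply, RingHom.id_apply, Matrix.smul_mul] }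
  set 𝒮 := LinearMap.range φ with h𝒮
  have hb : ∀ i < r + 2, ∀ M : Matrix (Fin k) (Fin k) R, M * (U * C ^ (i + 1)) ∈ 𝒮 := by
    intro i hi M
    refine ⟨Pi.single i M, ?_⟩
    show ∑ j ∈ Finset.range (r + 2), (Pi.single i M : ℕ → Matrix (Fin k) (Fin k) R) j *
      (U * C ^ (j + 1)) = _
    rw [Finset.sum_eq_single i]
    · rw [Pi.single_eq_same]
    · intro j _ hj
      rw [Pi.single_eq_of_ne hj, Matrix.zero_mul]
    · intro h; exact absurd (Finset.mem_range.2 hi) h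
  have hb' : ∀ i < r + 2, U * C ^ (i + 1) ∈ 𝒮 := by
    intro i hi
    have := hb i hi 1
    rwa [Matrix.one_mul] at this
  set c : ℕ → R := fun i => (Hp R (r + 1)).coeff i with hc
  have hG : U * aeval C (Hp R (r + 1)) = ∑ i ∈ Finset.range (r + 2), c i • (U * C ^ i) := by
    rw [aeval_eq_sum_range' (show (Hp R (r + 1)).natDegree < r + 2 from
      lt_of_le_of_lt (Hp_natDegree _) (by omega)), Matrix.mul_sum]
    exact Finset.sum_congr rfl fun i _ => Matrix.mul_smul _ _ _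
  have hpw : ∀ i : ℕ, U * C ^ i * C = U * C ^ (i + 1) := fun i => by
    rw [Matrix.mul_assoc, ← pow_succ]
  have hGC : U * aeval C (Hp R (r + 1)) * C = ∑ i ∈ Finset.range (r + 2), c i • (U * C ^ (i + 1)) := by
    rw [hG, Matrix.sum_mul]
    exact Finset.sum_congr rfl fun i _ => by rw [Matrix.smul_mul, hpw]
  have hGCC : U * aeval C (Hp R (r + 1)) * C * C =
      ∑ i ∈ Finset.range (r + 1), c i • (U * C ^ (i + 2)) + U * C ^ (r + 3) := by
    rw [hGC, Matrix.sum_mul, Finset.sum_range_succ]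
    congr 1
    · exact Finset.sum_congr rfl fun i _ => by rw [Matrix.smul_mul, hpw]
    · have : c (r + 1) = 1 := Hp_top (r + 1)
      rw [this, one_smul, hpw]
  have hWG : W * (U * aeval C (Hp R (r + 1))) =
      ∑ i ∈ Finset.range (r + 1), c (i + 1) • (W * (U * C ^ (i + 1))) +
        (-1 : R) ^ (r + 1) • (W * U) := by
    rw [hG, Matrix.mul_sum, Finset.sum_range_succ']
    congr 1
    · exact Finset.sum_congr rfl fun i _ => Matrix.mul_smul _ _ _
    · have : c 0 = (-1) ^ (r + 1) := Hp_coeff (r + 1)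
      rw [this, pow_zero, Matrix.mul_one, Matrix.mul_smul]
  have h9 : (-1 : R) ^ (r + 2) • (W * U) + (-1 : R) ^ (r + 1) • (W * U) = 0 := by
    rw [← add_smul, pow_succ]; simp
  have hmem : U * aeval C (Hp R (r + 1)) * C * C - u * (U * aeval C (Hp R (r + 1)) * C) +
      W * (U * aeval C (Hp R (r + 1))) ∈ 𝒮 := by
    have e : U * aeval C (Hp R (r + 1)) * C * C - u * (U * aeval C (Hp R (r + 1)) * C) +
        W * (U * aeval C (Hp R (r + 1))) =
        ∑ i ∈ Finset.range (r + 1), c i • (U * C ^ (i + 2)) +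
        ∑ i ∈ Finset.range (r + 2), V i * (U * C ^ (i + 1)) -
        ∑ i ∈ Finset.range (r + 2), c i • (u * (U * C ^ (i + 1))) +
        ∑ i ∈ Finset.range (r + 1), c (i + 1) • (W * (U * C ^ (i + 1))) := by
      rw [hWG, hGCC, hC, hGC, Matrix.mul_sum]
      have e1 : ∑ i ∈ Finset.range (r + 2), u * (c i • (U * C ^ (i + 1))) =
          ∑ i ∈ Finset.range (r + 2), c i • (u * (U * C ^ (i + 1))) :=
        Finset.sum_congr rfl fun i _ => Matrix.mul_smul _ _ _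
      rw [e1]
      have e2 : (-1 : R) ^ (r + 2) • (W * U) = -((-1 : R) ^ (r + 1) • (W * U)) :=
        eq_neg_of_add_eq_zero_left h9
      rw [e2]
      abel
    rw [e]
    refine 𝒮.add_mem (𝒮.sub_mem (𝒮.add_mem ?_ ?_) ?_) ?_
    · exact 𝒮.sum_mem fun i hi => 𝒮.smul_mem _ (hb' (i + 1) (by have := Finset.mem_range.1 hi; omega))
    · exact 𝒮.sum_mem fun i hi => hb i (Finset.mem_range.1 hi) _
    · exact 𝒮.sum_mem fun i hi => 𝒮.smul_mem _ (hb i (Finset.mem_range.1 hi) _)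
    · exact 𝒮.sum_mem fun i hi => 𝒮.smul_mem _ (hb i (by have := Finset.mem_range.1 hi; omega) _)
  obtain ⟨γ, hγ⟩ := hmem
  exact ⟨γ, hγ.symm⟩

theorem blockCycW (r : ℕ) (C : Matrix n n R) (U : Matrix (Fin k) n R)
    (T0' : Matrix n ((Fin (r + 1) × Fin k) ⊕ (Fin k ⊕ Fin k)) R)
    (h1 : fromRows (Kry C U (r + 1)) (fromRows (U * C ^ (r + 1)) (U * C ^ (r + 2))) * T0' = 1)
    (h2 : T0' * fromRows (Kry C U (r + 1)) (fromRows (U * C ^ (r + 1)) (U * C ^ (r + 2))) = 1)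
    (W u : Matrix (Fin k) (Fin k) R) (A₂ B₂ : (Matrix (Fin k ⊕ Fin k) (Fin k ⊕ Fin k) R)ˣ)
    (hW : ((A₂ * B₂ * A₂⁻¹ * B₂⁻¹ : (Matrix (Fin k ⊕ Fin k) (Fin k ⊕ Fin k) R)ˣ) :
      Matrix (Fin k ⊕ Fin k) (Fin k ⊕ Fin k) R) = fromBlocks 0 1 (-W) u)
    (hB : IsUnit (aeval (B₂ : Matrix (Fin k ⊕ Fin k) (Fin k ⊕ Fin k) R) (X - 1 : R[X])))
    (V : ℕ → Matrix (Fin k) (Fin k) R)
    (hC : U * C ^ (r + 3) = (-1 : R) ^ (r + 2) • (W * U) +
      ∑ i ∈ Finset.range (r + 2), V i * (U * C ^ (i + 1))) :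
    ∃ A B : (Matrix n n R)ˣ,
      ((A * B * A⁻¹ * B⁻¹ : (Matrix n n R)ˣ) : Matrix n n R) = C := by
  obtain ⟨γ, hγ⟩ := coefW r C U W u V hC
  have hpw : ∀ i : ℕ, U * C ^ i * C = U * C ^ (i + 1) := fun i => by
    rw [Matrix.mul_assoc, ← pow_succ]
  obtain ⟨J, hJ⟩ := (J0_unit (R := R) (r + 1)).map (kr R (r + 1) k)
  obtain ⟨Jt, hJt⟩ := (J0t_unit (R := R) (r + 1)).map (kr R (r + 1) k)
  set G : Matrix (Fin k) n R := U * aeval C (Hp R (r + 1)) with hG
  set α : Matrix (Fin k) (Fin k) R := γ (r + 1) with hα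
  set W₁ : (Matrix (Fin (r + 1) × Fin k) (Fin (r + 1) × Fin k) R)ˣ := J * Jt⁻¹ with hW₁
  set w₂ : (Matrix (Fin k ⊕ Fin k) (Fin k ⊕ Fin k) R)ˣ := A₂ * B₂ * A₂⁻¹ * B₂⁻¹ with hw₂
  have hwB : w₂ * B₂ = A₂ * B₂ * A₂⁻¹ := by rw [hw₂]; group
  have hcj : Cj (B₂ : Matrix (Fin k ⊕ Fin k) (Fin k ⊕ Fin k) R)
      ((w₂ * B₂ : (Matrix (Fin k ⊕ Fin k) (Fin k ⊕ Fin k) R)ˣ) :
        Matrix (Fin k ⊕ Fin k) (Fin k ⊕ Fin k) R) := by
    rw [hwB]; exact Cj_conj A₂ B₂
  set KK := Kry C U (r + 1) with hKK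
  set Y0 : Matrix (Fin (r + 1) × Fin k) (Fin k ⊕ Fin k) R := fromCols (EE R (r + 1) k) 0 with hY0
  set x₁ : Matrix (Fin k) (Fin (r + 1) × Fin k) R := α * (EE R (r + 1) k)ᵀ with hx₁
  set x₂ : Matrix (Fin k) (Fin (r + 1) × Fin k) R :=
    Matrix.of (fun (a : Fin k) (p : Fin (r + 1) × Fin k) => γ p.1 a p.2) +
      (u * α) * (EE R (r + 1) k)ᵀ with hx₂
  have hpB : IsUnit (aeval (B₂ : Matrix (Fin k ⊕ Fin k) (Fin k ⊕ Fin k) R)
      ((X - 1) ^ (r + 1) : R[X])) := by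
    rw [map_pow]; exact hB.pow _
  have hWJ : W₁ * Jt = J := by rw [hW₁]; group
  obtain ⟨A, B, hAB⟩ := blockLU W₁ Jt w₂ B₂ (fromRows x₁ x₂)
    ((W₁⁻¹ : (Matrix (Fin (r + 1) × Fin k) (Fin (r + 1) × Fin k) R)ˣ).val * Y0)
    ((X - 1) ^ (r + 1)) (by rw [hWJ, hJ]; exact J0_kill _ _)
    (Cj_unit (Cj_aeval hcj _) hpB) ((X - 1) ^ (r + 1)) (by rw [hJt]; exact J0t_kill _ _) hpB (by
      rw [hWJ, hJ, hJt]
      exact rdiag_conj (Cj_map _ (J0_conj _)) hcj.symm)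
  set em : Matrix (Fin k) n R := G * C - α * (U * C ^ (r + 1)) with hem
  set F : Matrix (Fin k ⊕ Fin k) n R := fromRows G em with hF
  -- the Krylov identities
  have hKh : (W₁ : Matrix (Fin (r + 1) × Fin k) (Fin (r + 1) × Fin k) R) * KK =
      kr R (r + 1) k (J0 R (r + 1)) * Kh C U (r + 1) := by
    have e1 : KK = Jt.val * Kh C U (r + 1) := by rw [hJt, F1]
    rw [e1, hW₁, Units.val_mul, Matrix.mul_assoc, ← Matrix.mul_assoc (Jt⁻¹).val, Units.inv_mul,
      Matrix.one_mul, hJ]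
  have hKC : (W₁ : Matrix (Fin (r + 1) × Fin k) (Fin (r + 1) × Fin k) R) * KK + Y0 * F = KK * C := by
    rw [hKh, hY0, hF, fromCols_mul_fromRows, Matrix.zero_mul, add_zero]
    exact F2 C U (r + 1)
  have hlast : (EE R (r + 1) k)ᵀ * KK = U * C ^ r := by
    rw [EEt_mul]
    ext a l
    simp [hKK, Kry]
  have hxK1 : x₁ * KK = α * (U * C ^ r) := by rw [hx₁, Matrix.mul_assoc, hlast]
  have hxK2 : x₂ * KK = ∑ i ∈ Finset.range (r + 1), γ i * (U * C ^ i) +
      (u * α) * (U * C ^ r) := by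
    rw [hx₂, Matrix.add_mul, GG_mul, Matrix.mul_assoc, hlast]
  have hDF : F * C = fromRows x₁ x₂ * (KK * C) + w₂.val * F := by
    rw [hW, hF, fromBlocks_mul_fromRows, fromRows_mul, fromRows_mul, fr_add,
      ← Matrix.mul_assoc x₁, ← Matrix.mul_assoc x₂, hxK1, hxK2]
    congr 1
    · rw [Matrix.zero_mul, Matrix.one_mul, zero_add, hem, Matrix.mul_assoc α, hpw]
      abel
    · rw [Matrix.neg_mul, Matrix.add_mul, Matrix.sum_mul,
        Matrix.mul_assoc (u * α), hpw]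
      have e3 : ∑ i ∈ Finset.range (r + 1), γ i * (U * C ^ i) * C =
          ∑ i ∈ Finset.range (r + 1), γ i * (U * C ^ (i + 1)) := by
        refine Finset.sum_congr rfl fun i _ => ?_
        rw [Matrix.mul_assoc, Matrix.mul_assoc, ← pow_succ]
      rw [e3]
      rw [Finset.sum_range_succ] at hγ
      have e4 : em * C = G * C * C - α * (U * C ^ (r + 1 + 1)) := by
        rw [hem, Matrix.sub_mul, Matrix.mul_assoc α, hpw]
      have e5 : ∑ i ∈ Finset.range (r + 1), γ i * (U * C ^ (i + 1)) =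
          G * C * C - u * (G * C) + W * G - α * (U * C ^ (r + 1 + 1)) := by
        rw [hγ]; abel
      rw [e4, e5, hem, Matrix.mul_sub, Matrix.mul_assoc u α]
      abel
  -- invertibility
  have hHp : U * aeval C (Hp R r) = (EE R (r + 1) k)ᵀ * ((Jt⁻¹).val * KK) := by
    have e1 : KK = Jt.val * Kh C U (r + 1) := by rw [hJt, F1]
    rw [e1, ← Matrix.mul_assoc (Jt⁻¹).val, Units.inv_mul, Matrix.one_mul, EEt_mul]
    ext a l
    simp [Kh]
  set L : Matrix (Fin k) (Fin (r + 1) × Fin k) R := (EE R (r + 1) k)ᵀ * (Jt⁻¹).val with hL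
  have hG1 : G = U * C ^ (r + 1) - L * KK := by
    rw [hL, Matrix.mul_assoc, ← hHp, hG, ← Hp_aeval C r, Matrix.mul_add]; abel
  set z : Matrix (Fin k) (Fin k) R := -(L * EE R (r + 1) k + α) with hz
  set x21 : Matrix (Fin k ⊕ Fin k) (Fin (r + 1) × Fin k) R :=
    fromRows (-L) (-(L * W₁.val) + L * EE R (r + 1) k * L) with hx21
  set S : Matrix ((Fin (r + 1) × Fin k) ⊕ (Fin k ⊕ Fin k)) ((Fin (r + 1) × Fin k) ⊕ (Fin k ⊕ Fin k)) R :=
    fromBlocks 1 0 x21 (fromBlocks 1 0 z 1) with hS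
  set S' : Matrix ((Fin (r + 1) × Fin k) ⊕ (Fin k ⊕ Fin k)) ((Fin (r + 1) × Fin k) ⊕ (Fin k ⊕ Fin k)) R :=
    fromBlocks 1 0 (-(fromBlocks 1 0 (-z) 1 * x21)) (fromBlocks 1 0 (-z) 1) with hS'
  have hT : S * fromRows KK (fromRows (U * C ^ (r + 1)) (U * C ^ (r + 2))) = fromRows KK F := by
    rw [hS, fromBlocks_mul_fromRows, fromBlocks_mul_fromRows, hx21, fromRows_mul, fr_add, hF]
    congr 1
    · simp
    · congr 1
      · rw [hG1, Matrix.neg_mul, Matrix.zero_mul, Matrix.one_mul]; abel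
      · have e6 : em = U * C ^ (r + 2) - L * (KK * C) - α * (U * C ^ (r + 1)) := by
          rw [hem, hG1, Matrix.sub_mul, hpw, Matrix.mul_assoc L]
        have e7 : KK * C = W₁.val * KK + EE R (r + 1) k * G := by
          rw [← hKC, hY0, hF, fromCols_mul_fromRows, Matrix.zero_mul, add_zero]
        rw [e6, e7, hG1, hz]
        simp only [Matrix.mul_add, Matrix.mul_sub, Matrix.add_mul, Matrix.neg_mul, Matrix.one_mul,
          Matrix.mul_assoc]
        abel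
  have hZ1 : (fromBlocks 1 0 z 1 : Matrix (Fin k ⊕ Fin k) (Fin k ⊕ Fin k) R) *
      fromBlocks 1 0 (-z) 1 = 1 := by
    rw [fromBlocks_multiply, ← fromBlocks_one]; congr 1 <;> simp
  have hZ2 : (fromBlocks 1 0 (-z) 1 : Matrix (Fin k ⊕ Fin k) (Fin k ⊕ Fin k) R) *
      fromBlocks 1 0 z 1 = 1 := by
    rw [fromBlocks_multiply, ← fromBlocks_one]; congr 1 <;> simp
  have hS1 : S * S' = 1 := tri_inv x21 _ _ hZ1
  have hS2 : S' * S = 1 := tri_inv' x21 _ _ hZ2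
  refine transport (fromRows KK F) (T0' * S') ?_ ?_ C A B ?_
  · rw [← hT]
    calc S * fromRows KK (fromRows (U * C ^ (r + 1)) (U * C ^ (r + 2))) * (T0' * S')
        = S * (fromRows KK (fromRows (U * C ^ (r + 1)) (U * C ^ (r + 2))) * T0') * S' := by
          simp only [Matrix.mul_assoc]
      _ = 1 := by rw [h1, Matrix.mul_one, hS1]
  · rw [← hT]
    calc T0' * S' * (S * fromRows KK (fromRows (U * C ^ (r + 1)) (U * C ^ (r + 2))))
        = T0' * (S' * S) * fromRows KK (fromRows (U * C ^ (r + 1)) (U * C ^ (r + 2))) := by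
          simp only [Matrix.mul_assoc]
      _ = 1 := by rw [hS2, Matrix.mul_one, h2]
  · have hWY : W₁.val * ((W₁⁻¹ : (Matrix (Fin (r + 1) × Fin k) (Fin (r + 1) × Fin k) R)ˣ).val * Y0)
        = Y0 := by rw [← Matrix.mul_assoc, Units.mul_inv, Matrix.one_mul]
    rw [hAB, Matrix.mul_assoc _ W₁.val, hWY, fromBlocks_mul_fromRows, hKC, fromRows_mul,
      Matrix.add_mul, Matrix.mul_assoc _ W₁.val, Matrix.mul_assoc _ Y0, ← add_assoc,
      ← Matrix.mul_add, hKC, hDF]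

end Pool.Agent.H18.IC
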