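import Mathlib

set_option autoImplicit false

/-!
# Commutators of block companion matrices of twice the size
-/

namespace Pool.Agent.H18.IC

open Matrix Polynomial

variable {R : Type} [CommRing R] {m : Type} [Fintype m] [DecidableEq m]

/-- `B = E A E⁻¹` for a unit `E`. -/
def Cj {S : Type} [Monoid S] (A B : S) : Prop := ∃ E : Sˣ, SemiconjBy (E : S) A B

theorem Cj.symm {S : Type} [Monoid S] {A B : S} (h : Cj A B) : Cj B A := by
  obtain ⟨E, h⟩ := h
  exact ⟨E⁻¹, h.units_inv_symm_left⟩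

theorem Cj.trans {S : Type} [Monoid S] {A B C : S} (h : Cj A B) (h' : Cj B C) : Cj A C := by
  obtain ⟨E, h⟩ := h
  obtain ⟨F, h'⟩ := h'
  exact ⟨F * E, by rw [Units.val_mul]; exact h'.mul_left h⟩

theorem syl_pow (N D : Matrix m m R) (i : ℕ) : ∀ V : Matrix m m R,
    ∃ Z, N * Z - Z * D = N ^ i * V - V * D ^ i := by
  induction i with
  | zero => intro V; exact ⟨0, by simp⟩
  | succ i ih =>
    intro V
    obtain ⟨Z, hZ⟩ := ih (N * V)
    refine ⟨Z + V * D ^ i, ?_⟩
    have e : N * (Z + V * D ^ i) - (Z + V * D ^ i) * D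
        = (N * Z - Z * D) + (N * (V * D ^ i) - V * D ^ i * D) := by noncomm_ring
    rw [e, hZ, pow_succ N, pow_succ D]
    noncomm_ring

theorem syl_aux (N D : Matrix m m R) (p : R[X]) : ∀ V : Matrix m m R,
    ∃ Z, N * Z - Z * D = aeval N p * V - V * aeval D p := by
  induction p using Polynomial.induction_on' with
  | add p q hp hq =>
    intro V
    obtain ⟨Z, hZ⟩ := hp V
    obtain ⟨Z', hZ'⟩ := hq V
    refine ⟨Z + Z', ?_⟩
    have e : N * (Z + Z') - (Z + Z') * D = (N * Z - Z * D) + (N * Z' - Z' * D) := by noncomm_ring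
    rw [e, hZ, hZ', map_add, map_add]
    noncomm_ring
  | monomial i a =>
    intro V
    obtain ⟨Z, hZ⟩ := syl_pow N D i V
    refine ⟨a • Z, ?_⟩
    rw [aeval_monomial, aeval_monomial, ← Algebra.smul_def, ← Algebra.smul_def, smul_mul_assoc,
      mul_smul_comm, mul_smul_comm, smul_mul_assoc, ← smul_sub, ← smul_sub, hZ]

/-- Sylvester's equation. -/
theorem syl (N D : Matrix m m R) (p : R[X]) (hD : aeval D p = 0) (hN : IsUnit (aeval N p))
    (W : Matrix m m R) : ∃ Z, N * Z - Z * D = W := by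
  obtain ⟨v, hv⟩ := hN
  obtain ⟨Z, hZ⟩ := syl_aux N D p (((v⁻¹ : (Matrix m m R)ˣ) : Matrix m m R) * W)
  refine ⟨Z, ?_⟩
  rw [hZ, hD, mul_zero, sub_zero, ← hv, ← mul_assoc, Units.mul_inv, one_mul]

/-- The unit `[[1, 0], [Z, 1]]`. -/
def lowU (Z : Matrix m m R) : (Matrix (m ⊕ m) (m ⊕ m) R)ˣ where
  val := fromBlocks 1 0 Z 1
  inv := fromBlocks 1 0 (-Z) 1
  val_inv := by rw [fromBlocks_multiply]; simp [fromBlocks_one]
  inv_val := by rw [fromBlocks_multiply]; simp [fromBlocks_one]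

/-- The unit `[[1, Z], [0, 1]]`. -/
def upU (Z : Matrix m m R) : (Matrix (m ⊕ m) (m ⊕ m) R)ˣ where
  val := fromBlocks 1 Z 0 1
  inv := fromBlocks 1 (-Z) 0 1
  val_inv := by rw [fromBlocks_multiply]; simp [fromBlocks_one]
  inv_val := by rw [fromBlocks_multiply]; simp [fromBlocks_one]

/-- The unit `[[G, 0], [0, L]]`. -/
def diagU (G L : (Matrix m m R)ˣ) : (Matrix (m ⊕ m) (m ⊕ m) R)ˣ where
  val := fromBlocks G.val 0 0 L.val
  inv := fromBlocks G.inv 0 0 L.inv
  val_inv := by rw [fromBlocks_multiply]; simp [fromBlocks_one]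
  inv_val := by rw [fromBlocks_multiply]; simp [fromBlocks_one]

/-- A block triangular matrix with coprime diagonal blocks is conjugate to its diagonal. -/
theorem split (N D W : Matrix m m R) (p : R[X]) (hD : aeval D p = 0) (hN : IsUnit (aeval N p)) :
    Cj (fromBlocks D 0 0 N) (fromBlocks D 0 W N) := by
  obtain ⟨Z, hZ⟩ := syl N D p hD hN (-W)
  refine ⟨lowU Z, ?_⟩
  show fromBlocks 1 0 Z 1 * fromBlocks D 0 0 N = fromBlocks D 0 W N * fromBlocks 1 0 Z 1
  rw [fromBlocks_multiply, fromBlocks_multiply]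
  have e : W + N * Z = Z * D := by
    have := hZ
    rw [sub_eq_iff_eq_add] at this
    rw [this]; abel
  simp [e]

/-- The matrix `[[X + Y, -(X Y D⁻¹)], [D, 0]]` as a unit. -/
def BU (X Y D : (Matrix m m R)ˣ) : (Matrix (m ⊕ m) (m ⊕ m) R)ˣ where
  val := fromBlocks (X.val + Y.val) (-((X * Y * D⁻¹ : (Matrix m m R)ˣ) : Matrix m m R)) D.val 0
  inv := fromBlocks 0 (D⁻¹ : (Matrix m m R)ˣ).val (-((D * Y⁻¹ * X⁻¹ : (Matrix m m R)ˣ) : Matrix m m R))
    (((D * Y⁻¹ * X⁻¹ : (Matrix m m R)ˣ) : Matrix m m R) * (X.val + Y.val) * (D⁻¹ : (Matrix m m R)ˣ).val)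
  val_inv := by
    rw [fromBlocks_multiply, ← fromBlocks_one]
    congr 1
    · rw [mul_zero, zero_add, neg_mul_neg, ← Units.val_mul, ← Units.val_one]
      congr 1; group
    · rw [← mul_assoc, ← mul_assoc, neg_mul, ← Units.val_mul]
      have : X * Y * D⁻¹ * (D * Y⁻¹ * X⁻¹) = 1 := by group
      rw [this, Units.val_one]
      noncomm_ring
    · simp
    · simp
  inv_val := by
    rw [fromBlocks_multiply, ← fromBlocks_one]
    congr 1
    · simp
    · simp
    · rw [neg_mul, mul_assoc (_ * _) (_ : Matrix m m R) D.val, Units.inv_mul, mul_one]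
      abel
    · rw [mul_zero, add_zero, neg_mul_neg, ← Units.val_mul, ← Units.val_one]
      congr 1; group

end Pool.Agent.H18.IC
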