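import Pool.Agent.H18.IC.Partner

set_option autoImplicit false

namespace Pool.Agent.H18.IC

open Matrix Polynomial

variable {R : Type} [CommRing R] {m l : Type} [Fintype m] [DecidableEq m] [Fintype l] [DecidableEq l]

theorem rsyl_pow (N : Matrix l l R) (D : Matrix m m R) (i : ℕ) : ∀ V : Matrix l m R,
    ∃ Z : Matrix l m R, N * Z - Z * D = N ^ i * V - V * D ^ i := by
  induction i with
  | zero => intro V; exact ⟨0, by simp⟩
  | succ i ih =>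
    intro V
    obtain ⟨Z, hZ⟩ := ih (N * V)
    refine ⟨Z + V * D ^ i, ?_⟩
    have e : N * (Z + V * D ^ i) - (Z + V * D ^ i) * D
        = (N * Z - Z * D) + (N * (V * D ^ i) - V * D ^ i * D) := by
      rw [Matrix.mul_add, Matrix.add_mul]; abel
    rw [e, hZ, pow_succ N, pow_succ D, Matrix.mul_assoc, Matrix.mul_assoc, Matrix.mul_assoc]
    abel

theorem rsyl_aux (N : Matrix l l R) (D : Matrix m m R) (p : R[X]) : ∀ V : Matrix l m R,
    ∃ Z : Matrix l m R, N * Z - Z * D = aeval N p * V - V * aeval D p := by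
  induction p using Polynomial.induction_on' with
  | add p q hp hq =>
    intro V
    obtain ⟨Z, hZ⟩ := hp V
    obtain ⟨Z', hZ'⟩ := hq V
    refine ⟨Z + Z', ?_⟩
    have e : N * (Z + Z') - (Z + Z') * D = (N * Z - Z * D) + (N * Z' - Z' * D) := by
      rw [Matrix.mul_add, Matrix.add_mul]; abel
    rw [e, hZ, hZ', map_add, map_add, Matrix.add_mul, Matrix.mul_add]
    abel
  | monomial i a =>
    intro V
    obtain ⟨Z, hZ⟩ := rsyl_pow N D i V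
    refine ⟨a • Z, ?_⟩
    rw [aeval_monomial, aeval_monomial, ← Algebra.smul_def, ← Algebra.smul_def, Matrix.smul_mul,
      Matrix.mul_smul, Matrix.mul_smul, Matrix.smul_mul, ← smul_sub, ← smul_sub, hZ]

theorem rsyl (N : Matrix l l R) (D : Matrix m m R) (p : R[X]) (hD : aeval D p = 0)
    (hN : IsUnit (aeval N p)) (W : Matrix l m R) : ∃ Z : Matrix l m R, N * Z - Z * D = W := by
  obtain ⟨v, hv⟩ := hN
  obtain ⟨Z, hZ⟩ := rsyl_aux N D p (((v⁻¹ : (Matrix l l R)ˣ) : Matrix l l R) * W)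
  refine ⟨Z, ?_⟩
  rw [hZ, hD, Matrix.mul_zero, sub_zero, ← hv, ← Matrix.mul_assoc, Units.mul_inv, Matrix.one_mul]

/-- The unit `[[1, 0], [Z, 1]]`. -/
def rlowU (Z : Matrix l m R) : (Matrix (m ⊕ l) (m ⊕ l) R)ˣ where
  val := fromBlocks 1 0 Z 1
  inv := fromBlocks 1 0 (-Z) 1
  val_inv := by rw [fromBlocks_multiply]; simp [fromBlocks_one]
  inv_val := by rw [fromBlocks_multiply]; simp [fromBlocks_one]

/-- The unit `[[G, 0], [0, L]]`. -/
def rdiagU (G : (Matrix m m R)ˣ) (L : (Matrix l l R)ˣ) : (Matrix (m ⊕ l) (m ⊕ l) R)ˣ where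
  val := fromBlocks G.val 0 0 L.val
  inv := fromBlocks G.inv 0 0 L.inv
  val_inv := by rw [fromBlocks_multiply]; simp [fromBlocks_one]
  inv_val := by rw [fromBlocks_multiply]; simp [fromBlocks_one]

theorem rsplit (N : Matrix l l R) (D : Matrix m m R) (W : Matrix l m R) (p : R[X])
    (hD : aeval D p = 0) (hN : IsUnit (aeval N p)) :
    Cj (fromBlocks D 0 0 N) (fromBlocks D 0 W N) := by
  obtain ⟨Z, hZ⟩ := rsyl N D p hD hN (-W)
  refine ⟨rlowU Z, ?_⟩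
  show fromBlocks 1 0 Z 1 * fromBlocks D 0 0 N = fromBlocks D 0 W N * fromBlocks 1 0 Z 1
  rw [fromBlocks_multiply, fromBlocks_multiply]
  have e : W + N * Z = Z * D := by
    rw [sub_eq_iff_eq_add] at hZ
    rw [hZ]; abel
  simp [e]

/-- Extensions of commutators with coprime characteristic polynomials. -/
theorem ext (A₁ B₁ : (Matrix m m R)ˣ) (A₂ B₂ : (Matrix l l R)ˣ) (p : R[X])
    (h1 : aeval (B₁ : Matrix m m R) p = 0) (h2 : IsUnit (aeval (B₂ : Matrix l l R) p))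
    (Z : Matrix l m R) :
    ∃ A B : (Matrix (m ⊕ l) (m ⊕ l) R)ˣ,
      ((A * B * A⁻¹ * B⁻¹ : (Matrix (m ⊕ l) (m ⊕ l) R)ˣ) : Matrix (m ⊕ l) (m ⊕ l) R) =
        fromBlocks ((A₁ * B₁ * A₁⁻¹ * B₁⁻¹ : (Matrix m m R)ˣ) : Matrix m m R) 0 Z
          ((A₂ * B₂ * A₂⁻¹ * B₂⁻¹ : (Matrix l l R)ˣ) : Matrix l l R) := by
  set C : Matrix (m ⊕ l) (m ⊕ l) R :=
    fromBlocks ((A₁ * B₁ * A₁⁻¹ * B₁⁻¹ : (Matrix m m R)ˣ) : Matrix m m R) 0 Z
          ((A₂ * B₂ * A₂⁻¹ * B₂⁻¹ : (Matrix l l R)ˣ) : Matrix l l R) with hC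
  have hCB : C * (rdiagU B₁ B₂ : Matrix (m ⊕ l) (m ⊕ l) R) =
      fromBlocks ((A₁ * B₁ * A₁⁻¹ : (Matrix m m R)ˣ) : Matrix m m R) 0 (Z * B₁.val)
        ((A₂ * B₂ * A₂⁻¹ : (Matrix l l R)ˣ) : Matrix l l R) := by
    show fromBlocks ((A₁ * B₁ * A₁⁻¹ * B₁⁻¹ : (Matrix m m R)ˣ) : Matrix m m R) 0 Z
          ((A₂ * B₂ * A₂⁻¹ * B₂⁻¹ : (Matrix l l R)ˣ) : Matrix l l R) *
      fromBlocks B₁.val 0 0 B₂.val = _
    rw [fromBlocks_multiply]
    congr 1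
    · rw [Matrix.zero_mul, add_zero, ← Units.val_mul]; congr 1; group
    · simp
    · simp
    · rw [Matrix.mul_zero, zero_add, ← Units.val_mul]; congr 1; group
  have hc1 : Cj (B₁ : Matrix m m R) ((A₁ * B₁ * A₁⁻¹ : (Matrix m m R)ˣ) : Matrix m m R) := Cj_conj _ _
  have hc2 : Cj (B₂ : Matrix l l R) ((A₂ * B₂ * A₂⁻¹ : (Matrix l l R)ˣ) : Matrix l l R) := Cj_conj _ _
  have h3 : Cj (rdiagU B₁ B₂ : Matrix (m ⊕ l) (m ⊕ l) R)
      (fromBlocks ((A₁ * B₁ * A₁⁻¹ : (Matrix m m R)ˣ) : Matrix m m R) 0 0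
        ((A₂ * B₂ * A₂⁻¹ : (Matrix l l R)ˣ) : Matrix l l R)) := by
    obtain ⟨G, g⟩ := hc1
    obtain ⟨L, h⟩ := hc2
    refine ⟨rdiagU G L, ?_⟩
    show fromBlocks G.val 0 0 L.val * fromBlocks B₁.val 0 0 B₂.val = _ * fromBlocks G.val 0 0 L.val
    rw [fromBlocks_multiply, fromBlocks_multiply]
    have e1 := g.eq
    have e2 := h.eq
    simp [e1, e2]
  have h4 : Cj (rdiagU B₁ B₂ : Matrix (m ⊕ l) (m ⊕ l) R)
      (C * (rdiagU B₁ B₂ : Matrix (m ⊕ l) (m ⊕ l) R)) := by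
    rw [hCB]
    exact h3.trans (rsplit _ _ _ p (Cj_zero (Cj_aeval hc1 p) h1) (Cj_unit (Cj_aeval hc2 p) h2))
  obtain ⟨A, hA⟩ := h4
  refine ⟨A, rdiagU B₁ B₂, ?_⟩
  have hA' : (A : Matrix (m ⊕ l) (m ⊕ l) R) * (rdiagU B₁ B₂ : Matrix (m ⊕ l) (m ⊕ l) R)
      = C * (rdiagU B₁ B₂ : Matrix (m ⊕ l) (m ⊕ l) R) * A := hA
  rw [Units.val_mul, Units.val_mul, Units.val_mul, hA', mul_assoc _ (A : Matrix (m ⊕ l) (m ⊕ l) R),
    Units.mul_inv, mul_one, mul_assoc, Units.mul_inv, mul_one]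

/-- A coprime partner of size `l ≥ k`. -/
theorem exists_partner' [Nontrivial R] (k l : ℕ) (hk : 2 ≤ k) (hkl : k ≤ l)
    (Q : (Matrix (Fin k) (Fin k) R)ˣ) :
    ∃ M : (Matrix (Fin l) (Fin l) R)ˣ,
      IsUnit (aeval (M : Matrix (Fin l) (Fin l) R) (Q : Matrix (Fin k) (Fin k) R).charpoly) := by
  rcases hkl.eq_or_lt with rfl | hlt
  · exact exists_partner k hk Q
  set p := (Q : Matrix (Fin k) (Fin k) R).charpoly with hp
  have hpm : p.Monic := Matrix.charpoly_monic _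
  have hpd : p.natDegree = k := by rw [hp, Matrix.charpoly_natDegree_eq_dim, Fintype.card_fin]
  have hqm : (p * X ^ (l - k)).Monic := hpm.mul (monic_X_pow _)
  have hqd : (p * X ^ (l - k)).natDegree = l := by
    rw [hpm.natDegree_mul (monic_X_pow _), hpd, natDegree_X_pow]; omega
  have h1 : (1 : R[X]).degree < (p * X ^ (l - k)).degree := by
    rw [degree_one, degree_eq_natDegree hqm.ne_zero, hqd]
    exact_mod_cast (by omega : 0 < l)
  have hf : (p * X ^ (l - k) + 1).Monic := hqm.add_of_left h1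
  have hfd : (p * X ^ (l - k) + 1).natDegree = l := by
    rw [natDegree_add_eq_left_of_degree_lt h1, hqd]
  have h0 : IsUnit ((p * X ^ (l - k) + 1).coeff 0) := by
    have : (p * X ^ (l - k)).coeff 0 = 0 := by
      rw [mul_coeff_zero, coeff_X_pow, if_neg (by omega), mul_zero]
    rw [coeff_add, this, zero_add, coeff_one_zero]
    exact isUnit_one
  obtain ⟨M, hM⟩ := exists_root _ hf l hfd h0
  refine ⟨M, ?_⟩
  rw [map_add, map_mul, map_pow, aeval_X, map_one] at hM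
  have h2 : aeval (M : Matrix (Fin l) (Fin l) R) p * (-(M : Matrix (Fin l) (Fin l) R) ^ (l - k)) = 1 := by
    rw [mul_neg]
    exact neg_eq_of_add_eq_zero_right (by rw [add_comm] at hM; rw [add_comm]; exact hM)
  exact IsUnit.of_mul_eq_one _ h2

theorem ext_one (k l : ℕ) (hk : 2 ≤ k) (hkl : k ≤ l) (A₁ B₁ : (Matrix (Fin k) (Fin k) R)ˣ)
    (Z : Matrix (Fin l) (Fin k) R) :
    ∃ A B : (Matrix (Fin k ⊕ Fin l) (Fin k ⊕ Fin l) R)ˣ,
      ((A * B * A⁻¹ * B⁻¹ : (Matrix (Fin k ⊕ Fin l) (Fin k ⊕ Fin l) R)ˣ) :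
        Matrix (Fin k ⊕ Fin l) (Fin k ⊕ Fin l) R) =
        fromBlocks ((A₁ * B₁ * A₁⁻¹ * B₁⁻¹ : (Matrix (Fin k) (Fin k) R)ˣ) :
          Matrix (Fin k) (Fin k) R) 0 Z 1 := by
  rcases subsingleton_or_nontrivial R with h | h
  · exact ⟨1, 1, Subsingleton.elim _ _⟩
  · obtain ⟨M, hM⟩ := exists_partner' k l hk hkl B₁
    obtain ⟨A, B, hAB⟩ := ext A₁ B₁ 1 M _ (Matrix.aeval_self_charpoly _) hM Z
    refine ⟨A, B, ?_⟩
    have e : (1 : (Matrix (Fin l) (Fin l) R)ˣ) * M * 1⁻¹ * M⁻¹ = 1 := by group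
    rw [hAB, e, Units.val_one]

end Pool.Agent.H18.IC
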