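import Pool.Agent.H18.IC.Ext

set_option autoImplicit false

namespace Pool.Agent.H18.IC

open Matrix Polynomial

variable {R : Type} [CommRing R] {m l : Type} [Fintype m] [DecidableEq m] [Fintype l] [DecidableEq l]

/-- Coprimality is symmetric. -/
theorem cop_symm (A : Matrix m m R) (B : Matrix l l R) (p : R[X]) (hA : aeval A p = 0)
    (hB : IsUnit (aeval B p)) : ∃ q : R[X], aeval B q = 0 ∧ IsUnit (aeval A q) := by
  obtain ⟨E, hE⟩ := hB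
  set χ := (E : Matrix l l R).charpoly with hχ
  have h0 : IsUnit (χ.coeff 0) := by
    have h1 : (E : Matrix l l R).det = (-1) ^ Fintype.card l * χ.coeff 0 :=
      Matrix.det_eq_sign_charpoly_coeff _
    have h2 : IsUnit (E : Matrix l l R).det := (Matrix.isUnit_iff_isUnit_det _).1 E.isUnit
    rw [h1] at h2
    exact isUnit_of_mul_isUnit_right h2
  obtain ⟨c, hc⟩ := h0
  have h3 : aeval (aeval B p) χ = 0 := by rw [← hE]; exact Matrix.aeval_self_charpoly _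
  have h4 : aeval B (χ.comp p) = 0 := by rw [aeval_comp]; exact h3
  refine ⟨χ.comp p, h4, ?_⟩
  rw [aeval_comp, hA]
  have h5 : aeval (0 : Matrix m m R) χ = algebraMap R _ (χ.coeff 0) := by
    have h6 := congrArg (aeval (0 : Matrix m m R)) (X_mul_divX_add χ)
    rw [map_add, map_mul, aeval_X, aeval_C, zero_mul, zero_add] at h6
    exact h6.symm
  rw [h5, ← hc]
  exact c.isUnit.map _

theorem rsyl' (N : Matrix l l R) (D : Matrix m m R) (p : R[X]) (hD : aeval D p = 0)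
    (hN : IsUnit (aeval N p)) (W : Matrix m l R) : ∃ Z : Matrix m l R, D * Z - Z * N = W := by
  obtain ⟨v, hv⟩ := hN
  obtain ⟨Z, hZ⟩ := rsyl_aux D N p (-(W * ((v⁻¹ : (Matrix l l R)ˣ) : Matrix l l R)))
  refine ⟨Z, ?_⟩
  rw [hZ, hD, Matrix.zero_mul, zero_sub, ← hv, Matrix.neg_mul, neg_neg, Matrix.mul_assoc,
    Units.inv_mul, Matrix.mul_one]

/-- The unit `[[1, Z], [0, 1]]`. -/
def rupU (Z : Matrix m l R) : (Matrix (m ⊕ l) (m ⊕ l) R)ˣ where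
  val := fromBlocks 1 Z 0 1
  inv := fromBlocks 1 (-Z) 0 1
  val_inv := by rw [fromBlocks_multiply]; simp [fromBlocks_one]
  inv_val := by rw [fromBlocks_multiply]; simp [fromBlocks_one]

theorem rsplitU (N : Matrix l l R) (D : Matrix m m R) (W : Matrix m l R) (p : R[X])
    (hD : aeval D p = 0) (hN : IsUnit (aeval N p)) :
    Cj (fromBlocks D 0 0 N) (fromBlocks D W 0 N) := by
  obtain ⟨Z, hZ⟩ := rsyl' N D p hD hN (-W)
  refine ⟨rupU Z, ?_⟩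
  show fromBlocks 1 Z 0 1 * fromBlocks D 0 0 N = fromBlocks D W 0 N * fromBlocks 1 Z 0 1
  rw [fromBlocks_multiply, fromBlocks_multiply]
  have e : D * Z + W = Z * N := by
    rw [sub_eq_iff_eq_add] at hZ
    rw [hZ]; abel
  simp [e]

/-- A block `LDU` factorisation. -/
theorem blockLU (W₁ N₁ : (Matrix m m R)ˣ) (W₂ N₂ : (Matrix l l R)ˣ) (x : Matrix l m R)
    (y : Matrix m l R) (p : R[X])
    (hp1 : aeval ((W₁ * N₁ : (Matrix m m R)ˣ) : Matrix m m R) p = 0)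
    (hp2 : IsUnit (aeval ((W₂ * N₂ : (Matrix l l R)ˣ) : Matrix l l R) p)) (q : R[X])
    (hq1 : aeval (N₁ : Matrix m m R) q = 0) (hq2 : IsUnit (aeval (N₂ : Matrix l l R) q))
    (hc : Cj (fromBlocks ((W₁ * N₁ : (Matrix m m R)ˣ) : Matrix m m R) 0 0
        ((W₂ * N₂ : (Matrix l l R)ˣ) : Matrix l l R))
      (fromBlocks (N₁ : Matrix m m R) 0 0 (N₂ : Matrix l l R))) :
    ∃ A B : (Matrix (m ⊕ l) (m ⊕ l) R)ˣ,
      ((A * B * A⁻¹ * B⁻¹ : (Matrix (m ⊕ l) (m ⊕ l) R)ˣ) : Matrix (m ⊕ l) (m ⊕ l) R) =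
        fromBlocks W₁.val (W₁.val * y) (x * W₁.val) (x * W₁.val * y + W₂.val) := by
  set C : Matrix (m ⊕ l) (m ⊕ l) R :=
    fromBlocks W₁.val (W₁.val * y) (x * W₁.val) (x * W₁.val * y + W₂.val) with hC
  have hN : ((rupU (-y) * rdiagU N₁ N₂ : (Matrix (m ⊕ l) (m ⊕ l) R)ˣ) : Matrix (m ⊕ l) (m ⊕ l) R)
      = fromBlocks N₁.val (-y * N₂.val) 0 N₂.val := by
    rw [Units.val_mul]
    show fromBlocks 1 (-y) 0 1 * fromBlocks N₁.val 0 0 N₂.val = _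
    rw [fromBlocks_multiply]; simp
  have hCN : C * ((rupU (-y) * rdiagU N₁ N₂ : (Matrix (m ⊕ l) (m ⊕ l) R)ˣ) :
      Matrix (m ⊕ l) (m ⊕ l) R) =
      fromBlocks ((W₁ * N₁ : (Matrix m m R)ˣ) : Matrix m m R) 0 (x * (W₁ * N₁ : (Matrix m m R)ˣ).val)
        ((W₂ * N₂ : (Matrix l l R)ˣ) : Matrix l l R) := by
    rw [hN, hC, fromBlocks_multiply, Units.val_mul, Units.val_mul]
    congr 1
    · simp
    · rw [Matrix.neg_mul, Matrix.mul_neg, Matrix.mul_assoc]; simp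
    · rw [Matrix.mul_zero, add_zero, Matrix.mul_assoc]
    · rw [Matrix.neg_mul, Matrix.mul_neg, Matrix.add_mul, Matrix.mul_assoc (x * W₁.val) y]; abel
  have h1 : Cj ((rupU (-y) * rdiagU N₁ N₂ : (Matrix (m ⊕ l) (m ⊕ l) R)ˣ) : Matrix (m ⊕ l) (m ⊕ l) R)
      (C * ((rupU (-y) * rdiagU N₁ N₂ : (Matrix (m ⊕ l) (m ⊕ l) R)ˣ) : Matrix (m ⊕ l) (m ⊕ l) R)) := by
    rw [hCN, hN]
    exact ((rsplitU N₂.val N₁.val _ q hq1 hq2).symm.trans hc.symm).trans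
      (rsplit _ _ _ p hp1 hp2)
  obtain ⟨A, hA⟩ := h1
  refine ⟨A, rupU (-y) * rdiagU N₁ N₂, ?_⟩
  have hA' : (A : Matrix (m ⊕ l) (m ⊕ l) R) *
      ((rupU (-y) * rdiagU N₁ N₂ : (Matrix (m ⊕ l) (m ⊕ l) R)ˣ) : Matrix (m ⊕ l) (m ⊕ l) R)
      = C * ((rupU (-y) * rdiagU N₁ N₂ : (Matrix (m ⊕ l) (m ⊕ l) R)ˣ) :
        Matrix (m ⊕ l) (m ⊕ l) R) * A := hA
  rw [Units.val_mul, Units.val_mul, Units.val_mul A, hA', mul_assoc _ (A : Matrix (m ⊕ l) (m ⊕ l) R),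
    Units.mul_inv, mul_one, mul_assoc, Units.mul_inv, mul_one]

end Pool.Agent.H18.IC
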