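import Pool.Agent.H18.IC.Double

set_option autoImplicit false

namespace Pool.Agent.H18.IC

open Matrix Polynomial

variable {R : Type} [CommRing R] {m : Type} [Fintype m] [DecidableEq m]

theorem B_conj (X Y D : (Matrix m m R)ˣ) :
    Cj (BU X Y D : Matrix (m ⊕ m) (m ⊕ m) R) (fromBlocks X.val 0 1 Y.val) := by
  refine ⟨upU (-Y.val) * diagU 1 D⁻¹, ?_⟩
  rw [Units.val_mul]
  show fromBlocks 1 (-Y.val) 0 1 * fromBlocks 1 0 0 (D⁻¹ : (Matrix m m R)ˣ).val *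
      fromBlocks (X.val + Y.val) (-((X * Y * D⁻¹ : (Matrix m m R)ˣ) : Matrix m m R)) D.val 0
    = fromBlocks X.val 0 1 Y.val *
      (fromBlocks 1 (-Y.val) 0 1 * fromBlocks 1 0 0 (D⁻¹ : (Matrix m m R)ˣ).val)
  rw [fromBlocks_multiply, fromBlocks_multiply, fromBlocks_multiply]
  simp only [one_mul, mul_one, mul_zero, zero_mul, add_zero, zero_add, Units.val_mul]
  congr 1
  · rw [mul_assoc, Units.inv_mul]; simp
  · noncomm_ring
  · rw [Units.inv_mul]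
  · noncomm_ring

theorem diag_conj {X Y D M : Matrix m m R} (h1 : Cj X D) (h2 : Cj Y M) :
    Cj (fromBlocks X 0 0 Y) (fromBlocks D 0 0 M) := by
  obtain ⟨G, h1⟩ := h1
  obtain ⟨L, h2⟩ := h2
  refine ⟨diagU G L, ?_⟩
  show fromBlocks G.val 0 0 L.val * fromBlocks X 0 0 Y = fromBlocks D 0 0 M * fromBlocks G.val 0 0 L.val
  rw [fromBlocks_multiply, fromBlocks_multiply]
  have e1 : G.val * X = D * G.val := h1
  have e2 : L.val * Y = M * L.val := h2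
  simp [e1, e2]

/-- The main construction. -/
theorem main_partner (M D X Y : (Matrix m m R)ˣ) (hX : Cj (X : Matrix m m R) D) (hY : Cj (Y : Matrix m m R) M)
    (p : R[X]) (hpX : aeval (X : Matrix m m R) p = 0) (hpY : IsUnit (aeval (Y : Matrix m m R) p))
    (hpD : aeval (D : Matrix m m R) p = 0) (hpM : IsUnit (aeval (M : Matrix m m R) p))
    (u : Matrix m m R) :
    ∃ A B : (Matrix (m ⊕ m) (m ⊕ m) R)ˣ,
      ((A * B * A⁻¹ * B⁻¹ : (Matrix (m ⊕ m) (m ⊕ m) R)ˣ) : Matrix (m ⊕ m) (m ⊕ m) R) =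
        fromBlocks 0 1 (-((M * D * Y⁻¹ * X⁻¹ : (Matrix m m R)ˣ) : Matrix m m R)) u ∧
      Cj (B : Matrix (m ⊕ m) (m ⊕ m) R) (fromBlocks X.val 0 0 Y.val) := by
  set C : Matrix (m ⊕ m) (m ⊕ m) R :=
    fromBlocks 0 1 (-((M * D * Y⁻¹ * X⁻¹ : (Matrix m m R)ˣ) : Matrix m m R)) u with hC
  have hCB : C * (BU X Y D : Matrix (m ⊕ m) (m ⊕ m) R) = fromBlocks D.val 0
      (-((M * D * Y⁻¹ * X⁻¹ : (Matrix m m R)ˣ) : Matrix m m R) * (X.val + Y.val) + u * D.val) M.val := by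
    show fromBlocks 0 1 (-((M * D * Y⁻¹ * X⁻¹ : (Matrix m m R)ˣ) : Matrix m m R)) u *
      fromBlocks (X.val + Y.val) (-((X * Y * D⁻¹ : (Matrix m m R)ˣ) : Matrix m m R)) D.val 0 = _
    rw [fromBlocks_multiply]
    congr 1
    · simp
    · simp
    · rw [mul_zero, add_zero, neg_mul_neg, ← Units.val_mul]
      congr 1; group
  have h1 : Cj (BU X Y D : Matrix (m ⊕ m) (m ⊕ m) R) (C * (BU X Y D : Matrix (m ⊕ m) (m ⊕ m) R)) := by
    rw [hCB]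
    refine (B_conj X Y D).trans ?_
    refine ((split Y.val X.val 1 p hpX hpY).symm).trans ?_
    refine (diag_conj hX hY).trans ?_
    exact split M.val D.val _ p hpD hpM
  obtain ⟨A, hA⟩ := h1
  refine ⟨A, BU X Y D, ?_, (B_conj X Y D).trans (split Y.val X.val 1 p hpX hpY).symm⟩
  have hA' : (A : Matrix (m ⊕ m) (m ⊕ m) R) * (BU X Y D : Matrix (m ⊕ m) (m ⊕ m) R)
      = C * (BU X Y D : Matrix (m ⊕ m) (m ⊕ m) R) * A := hA
  rw [Units.val_mul, Units.val_mul, Units.val_mul, hA', mul_assoc _ (A : Matrix (m ⊕ m) (m ⊕ m) R),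
    Units.mul_inv, mul_one, mul_assoc, Units.mul_inv, mul_one]

theorem main (M D X Y : (Matrix m m R)ˣ) (hX : Cj (X : Matrix m m R) D) (hY : Cj (Y : Matrix m m R) M)
    (p : R[X]) (hpX : aeval (X : Matrix m m R) p = 0) (hpY : IsUnit (aeval (Y : Matrix m m R) p))
    (hpD : aeval (D : Matrix m m R) p = 0) (hpM : IsUnit (aeval (M : Matrix m m R) p))
    (u : Matrix m m R) :
    ∃ A B : (Matrix (m ⊕ m) (m ⊕ m) R)ˣ,
      ((A * B * A⁻¹ * B⁻¹ : (Matrix (m ⊕ m) (m ⊕ m) R)ˣ) : Matrix (m ⊕ m) (m ⊕ m) R) =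
        fromBlocks 0 1 (-((M * D * Y⁻¹ * X⁻¹ : (Matrix m m R)ˣ) : Matrix m m R)) u := by
  obtain ⟨A, B, h, _⟩ := main_partner M D X Y hX hY p hpX hpY hpD hpM u
  exact ⟨A, B, h⟩

theorem Cj_aeval {A B : Matrix m m R} (h : Cj A B) (p : R[X]) : Cj (aeval A p) (aeval B p) := by
  obtain ⟨E, h⟩ := h
  refine ⟨E, ?_⟩
  induction p using Polynomial.induction_on' with
  | add p q hp hq => rw [map_add, map_add]; exact hp.add_right hq
  | monomial i a =>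
    rw [aeval_monomial, aeval_monomial]
    refine SemiconjBy.mul_right ?_ (h.pow_right i)
    exact (Algebra.commutes a (E : Matrix m m R)).symm

theorem Cj_unit {A B : Matrix m m R} (h : Cj A B) (hA : IsUnit A) : IsUnit B := by
  obtain ⟨E, h⟩ := h
  obtain ⟨a, rfl⟩ := hA
  have : B = ((E * a * E⁻¹ : (Matrix m m R)ˣ) : Matrix m m R) := by
    rw [Units.val_mul, Units.val_mul, h.eq, mul_assoc, Units.mul_inv, mul_one]
  rw [this]; exact Units.isUnit _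

theorem Cj_zero {A B : Matrix m m R} (h : Cj A B) (hA : A = 0) : B = 0 := by
  obtain ⟨E, h⟩ := h
  subst hA
  have h' : B * (E : Matrix m m R) = 0 := by rw [← h.eq, mul_zero]
  calc B = B * (E : Matrix m m R) * (E⁻¹ : (Matrix m m R)ˣ) := by rw [mul_assoc, Units.mul_inv, mul_one]
    _ = 0 := by rw [h', zero_mul]

theorem Cj_conj (P Q : (Matrix m m R)ˣ) : Cj (Q : Matrix m m R) ((P * Q * P⁻¹ : (Matrix m m R)ˣ) : Matrix m m R) := by
  refine ⟨P, ?_⟩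
  show P.val * Q.val = _ * P.val
  rw [← Units.val_mul, ← Units.val_mul]
  congr 1; group

/-- Two commutators with coprime characteristic polynomials. -/
theorem two (P Q P' Q' : (Matrix m m R)ˣ) (p : R[X]) (hp : aeval (Q : Matrix m m R) p = 0)
    (hp' : IsUnit (aeval (Q' : Matrix m m R) p)) (u : Matrix m m R) :
    ∃ A B : (Matrix (m ⊕ m) (m ⊕ m) R)ˣ,
      ((A * B * A⁻¹ * B⁻¹ : (Matrix (m ⊕ m) (m ⊕ m) R)ˣ) : Matrix (m ⊕ m) (m ⊕ m) R) =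
        fromBlocks 0 1
          (-((P * Q * P⁻¹ * Q⁻¹ * (P' * Q' * P'⁻¹ * Q'⁻¹) : (Matrix m m R)ˣ) : Matrix m m R)) u := by
  -- `a = P Q P⁻¹`, `b = Q`, `c = P' Q' P'⁻¹`, `d = Q'`
  have hQa : Cj (Q : Matrix m m R) ((P * Q * P⁻¹ : (Matrix m m R)ˣ) : Matrix m m R) := Cj_conj P Q
  have hQX : Cj (Q : Matrix m m R) ((Q' * Q * Q'⁻¹ : (Matrix m m R)ˣ) : Matrix m m R) := Cj_conj Q' Q
  have hM : Cj (Q' : Matrix m m R)
      (((P * Q * P⁻¹ * Q⁻¹ * P') * Q' * (P * Q * P⁻¹ * Q⁻¹ * P')⁻¹ : (Matrix m m R)ˣ) : Matrix m m R) :=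
    Cj_conj _ Q'
  have key := main ((P * Q * P⁻¹ * Q⁻¹ * P') * Q' * (P * Q * P⁻¹ * Q⁻¹ * P')⁻¹) (P * Q * P⁻¹)
    (Q' * Q * Q'⁻¹) Q' (hQX.symm.trans hQa) hM p (Cj_zero (Cj_aeval hQX p) hp) hp'
    (Cj_zero (Cj_aeval hQa p) hp) (Cj_unit (Cj_aeval hM p) hp') u
  have e : (P * Q * P⁻¹ * Q⁻¹ * P') * Q' * (P * Q * P⁻¹ * Q⁻¹ * P')⁻¹ * (P * Q * P⁻¹) * Q'⁻¹ *
      (Q' * Q * Q'⁻¹)⁻¹ = P * Q * P⁻¹ * Q⁻¹ * (P' * Q' * P'⁻¹ * Q'⁻¹) := by group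
  rw [e] at key
  exact key

theorem two_partner (P Q P' Q' : (Matrix m m R)ˣ) (p : R[X]) (hp : aeval (Q : Matrix m m R) p = 0)
    (hp' : IsUnit (aeval (Q' : Matrix m m R) p)) (u : Matrix m m R) :
    ∃ A B : (Matrix (m ⊕ m) (m ⊕ m) R)ˣ,
      ((A * B * A⁻¹ * B⁻¹ : (Matrix (m ⊕ m) (m ⊕ m) R)ˣ) : Matrix (m ⊕ m) (m ⊕ m) R) =
        fromBlocks 0 1
          (-((P * Q * P⁻¹ * Q⁻¹ * (P' * Q' * P'⁻¹ * Q'⁻¹) : (Matrix m m R)ˣ) : Matrix m m R)) u ∧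
      Cj (B : Matrix (m ⊕ m) (m ⊕ m) R) (fromBlocks Q.val 0 0 Q'.val) := by
  have hQa : Cj (Q : Matrix m m R) ((P * Q * P⁻¹ : (Matrix m m R)ˣ) : Matrix m m R) := Cj_conj P Q
  have hQX : Cj (Q : Matrix m m R) ((Q' * Q * Q'⁻¹ : (Matrix m m R)ˣ) : Matrix m m R) := Cj_conj Q' Q
  have hM : Cj (Q' : Matrix m m R)
      (((P * Q * P⁻¹ * Q⁻¹ * P') * Q' * (P * Q * P⁻¹ * Q⁻¹ * P')⁻¹ : (Matrix m m R)ˣ) : Matrix m m R) :=
    Cj_conj _ Q'
  obtain ⟨A, B, key, hB⟩ := main_partner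
    ((P * Q * P⁻¹ * Q⁻¹ * P') * Q' * (P * Q * P⁻¹ * Q⁻¹ * P')⁻¹) (P * Q * P⁻¹)
    (Q' * Q * Q'⁻¹) Q' (hQX.symm.trans hQa) hM p (Cj_zero (Cj_aeval hQX p) hp) hp'
    (Cj_zero (Cj_aeval hQa p) hp) (Cj_unit (Cj_aeval hM p) hp') u
  have e : (P * Q * P⁻¹ * Q⁻¹ * P') * Q' * (P * Q * P⁻¹ * Q⁻¹ * P')⁻¹ * (P * Q * P⁻¹) * Q'⁻¹ *
      (Q' * Q * Q'⁻¹)⁻¹ = P * Q * P⁻¹ * Q⁻¹ * (P' * Q' * P'⁻¹ * Q'⁻¹) := by group
  rw [e] at key
  have h1 : Cj (Q' : Matrix m m R) (Q' : Matrix m m R) := by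
    refine ⟨1, ?_⟩
    rw [Units.val_one]; exact SemiconjBy.one_left _
  exact ⟨A, B, key, hB.trans (diag_conj hQX.symm h1)⟩

theorem aeval_diag (X Y : Matrix m m R) (p : R[X]) :
    aeval (fromBlocks X 0 0 Y) p = fromBlocks (aeval X p) 0 0 (aeval Y p) := by
  induction p using Polynomial.induction_on' with
  | add p q hp hq => rw [map_add, map_add, map_add, hp, hq, fromBlocks_add]; simp
  | monomial i a =>
    have hpow : ∀ i : ℕ, (fromBlocks X 0 0 Y) ^ i = fromBlocks (X ^ i) 0 0 (Y ^ i) := by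
      intro i
      induction i with
      | zero => simp [fromBlocks_one]
      | succ i ih => rw [pow_succ, ih, fromBlocks_multiply, pow_succ, pow_succ]; simp
    rw [aeval_monomial, aeval_monomial, aeval_monomial, hpow, ← Algebra.smul_def,
      ← Algebra.smul_def, ← Algebra.smul_def, fromBlocks_smul]
    simp

end Pool.Agent.H18.IC
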