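import Pool.Agent.H18.IC.Main

set_option autoImplicit false

namespace Pool.Agent.H18.IC

open Matrix Polynomial

variable {R : Type} [CommRing R]

/-- A monic polynomial of degree `k` with unit constant coefficient has a root in `GL_k(R)`. -/
theorem exists_root [Nontrivial R] (f : R[X]) (hf : f.Monic) (k : ℕ) (hk : f.natDegree = k)
    (h0 : IsUnit (f.coeff 0)) :
    ∃ M : (Matrix (Fin k) (Fin k) R)ˣ, aeval (M : Matrix (Fin k) (Fin k) R) f = 0 := by
  set pb := AdjoinRoot.powerBasis' hf with hpb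
  have hdim : pb.dim = k := by rw [hpb, AdjoinRoot.powerBasis'_dim, hk]
  let e : Fin pb.dim ≃ Fin k := finCongr hdim
  let φ : AdjoinRoot f →ₐ[R] Matrix (Fin k) (Fin k) R :=
    (Matrix.reindexAlgEquiv R R e).toAlgHom.comp (Algebra.leftMulMatrix pb.basis)
  set N := φ (AdjoinRoot.root f) with hN
  have hN0 : aeval N f = 0 := by
    rw [hN, aeval_algHom_apply, AdjoinRoot.aeval_eq, AdjoinRoot.mk_self, map_zero]
  obtain ⟨c, hc⟩ := h0
  have h1 : N * aeval N f.divX = -(algebraMap R _ (c : R)) := by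
    have h2 := congrArg (aeval N) (X_mul_divX_add f)
    rw [map_add, map_mul, aeval_X, aeval_C, hN0, ← hc] at h2
    exact eq_neg_of_add_eq_zero_left h2
  have h3 : N * (aeval N f.divX * -(algebraMap R _ ((c⁻¹ : Rˣ) : R))) = 1 := by
    rw [← mul_assoc, h1, neg_mul_neg, ← map_mul, Units.mul_inv, map_one]
  have h4 : IsUnit N := IsUnit.of_mul_eq_one _ h3
  obtain ⟨M, hM⟩ := h4
  exact ⟨M, by rw [hM]; exact hN0⟩

/-- A partner with coprime characteristic polynomial. -/
theorem exists_partner [Nontrivial R] (k : ℕ) (hk : 2 ≤ k) (Q : (Matrix (Fin k) (Fin k) R)ˣ) :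
    ∃ M : (Matrix (Fin k) (Fin k) R)ˣ,
      IsUnit (aeval (M : Matrix (Fin k) (Fin k) R) (Q : Matrix (Fin k) (Fin k) R).charpoly) := by
  set p := (Q : Matrix (Fin k) (Fin k) R).charpoly with hp
  have hpm : p.Monic := Matrix.charpoly_monic _
  have hpd : p.natDegree = k := by rw [hp, Matrix.charpoly_natDegree_eq_dim, Fintype.card_fin]
  have hpdeg : p.degree = k := by
    rw [hp, Matrix.charpoly_degree_eq_dim, Fintype.card_fin]
  have hX : (X : R[X]).degree < p.degree := by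
    rw [hpdeg, degree_X]
    exact_mod_cast (by omega : 1 < k)
  have hf : (p + X).Monic := hpm.add_of_left hX
  have hfd : (p + X).natDegree = k := by
    rw [natDegree_add_eq_left_of_degree_lt hX, hpd]
  have h0 : IsUnit ((p + X).coeff 0) := by
    rw [coeff_add, coeff_X_zero, add_zero]
    have h1 : (Q : Matrix (Fin k) (Fin k) R).det = (-1) ^ Fintype.card (Fin k) * p.coeff 0 :=
      Matrix.det_eq_sign_charpoly_coeff _
    have h2 : IsUnit (Q : Matrix (Fin k) (Fin k) R).det :=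
      (Matrix.isUnit_iff_isUnit_det _).1 Q.isUnit
    rw [h1] at h2
    exact isUnit_of_mul_isUnit_right h2
  obtain ⟨M, hM⟩ := exists_root (p + X) hf k hfd h0
  refine ⟨M, ?_⟩
  rw [map_add, aeval_X] at hM
  rw [eq_neg_of_add_eq_zero_left hM]
  exact M.isUnit.neg

theorem one (k : ℕ) (hk : 2 ≤ k) (P Q : (Matrix (Fin k) (Fin k) R)ˣ) (u : Matrix (Fin k) (Fin k) R) :
    ∃ A B : (Matrix (Fin k ⊕ Fin k) (Fin k ⊕ Fin k) R)ˣ,
      ((A * B * A⁻¹ * B⁻¹ : (Matrix (Fin k ⊕ Fin k) (Fin k ⊕ Fin k) R)ˣ) :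
        Matrix (Fin k ⊕ Fin k) (Fin k ⊕ Fin k) R) =
        fromBlocks 0 1 (-((P * Q * P⁻¹ * Q⁻¹ : (Matrix (Fin k) (Fin k) R)ˣ) :
          Matrix (Fin k) (Fin k) R)) u := by
  rcases subsingleton_or_nontrivial R with h | h
  · exact ⟨1, 1, Subsingleton.elim _ _⟩
  · obtain ⟨M, hM⟩ := exists_partner k hk Q
    obtain ⟨A, B, hAB⟩ := two P Q 1 M _ (Matrix.aeval_self_charpoly _) hM u
    refine ⟨A, B, ?_⟩
    have e : P * Q * P⁻¹ * Q⁻¹ * (1 * M * 1⁻¹ * M⁻¹) = P * Q * P⁻¹ * Q⁻¹ := by group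
    rw [hAB, e]

/-- Transport of a commutator along an invertible (rectangularly indexed) matrix. -/
theorem transport {n l : Type} [Fintype n] [DecidableEq n] [Fintype l] [DecidableEq l]
    (T : Matrix l n R) (T' : Matrix n l R) (h1 : T * T' = 1) (h2 : T' * T = 1)
    (C : Matrix n n R) (A B : (Matrix l l R)ˣ)
    (h : T * C = ((A * B * A⁻¹ * B⁻¹ : (Matrix l l R)ˣ) : Matrix l l R) * T) :
    ∃ A' B' : (Matrix n n R)ˣ, ((A' * B' * A'⁻¹ * B'⁻¹ : (Matrix n n R)ˣ) : Matrix n n R) = C := by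
  have cv : ∀ E F : Matrix l l R, T' * E * T * (T' * F * T) = T' * (E * F) * T := by
    intro E F
    calc T' * E * T * (T' * F * T) = T' * E * (T * T') * F * T := by simp only [Matrix.mul_assoc]
      _ = T' * (E * F) * T := by rw [h1, Matrix.mul_one]; simp only [Matrix.mul_assoc]
  let g : (Matrix l l R)ˣ → (Matrix n n R)ˣ := fun E =>
    { val := T' * E.val * T
      inv := T' * E.inv * T
      val_inv := by rw [cv, E.val_inv, Matrix.mul_one, h2]
      inv_val := by rw [cv, E.inv_val, Matrix.mul_one, h2] }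
  have hg : ∀ E F, g E * g F = g (E * F) := fun E F => Units.ext (cv E.val F.val)
  have hgi : ∀ E, (g E)⁻¹ = g E⁻¹ := fun E => Units.ext rfl
  refine ⟨g A, g B, ?_⟩
  rw [hgi, hgi, hg, hg, hg]
  show T' * ((A * B * A⁻¹ * B⁻¹ : (Matrix l l R)ˣ) : Matrix l l R) * T = C
  rw [Matrix.mul_assoc, ← h, ← Matrix.mul_assoc, h2, Matrix.one_mul]

end Pool.Agent.H18.IC
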