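import Pool.Agent.H18.IC.LU

set_option autoImplicit false

namespace Pool.Agent.H18.IC

open Matrix Polynomial

variable {R : Type} [CommRing R] {m n : Type} [Fintype m] [DecidableEq m] [Fintype n] [DecidableEq n]

theorem fr_add {a b c : Type} (A A' : Matrix a c R) (B B' : Matrix b c R) :
    fromRows A B + fromRows A' B' = fromRows (A + A') (B + B') := by
  ext (i | i) j <;> simp

/-- Three blocks: peeling off an identity block. -/
theorem triple (C : Matrix n n R) (U : Matrix m n R)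
    (T' : Matrix n (m ⊕ (m ⊕ m)) R)
    (h1 : fromRows U (fromRows (U * C) (U * C * C)) * T' = 1)
    (h2 : T' * fromRows U (fromRows (U * C) (U * C * C)) = 1)
    (V₁ V₂ : Matrix m m R) (W : Matrix m m R)
    (hC : U * C * C * C = W * U + V₁ * (U * C) + V₂ * (U * C * C))
    (u : Matrix m m R) (A₂ B₂ : (Matrix (m ⊕ m) (m ⊕ m) R)ˣ)
    (hW : ((A₂ * B₂ * A₂⁻¹ * B₂⁻¹ : (Matrix (m ⊕ m) (m ⊕ m) R)ˣ) : Matrix (m ⊕ m) (m ⊕ m) R)
      = fromBlocks 0 1 (-W) u)
    (B₁ : (Matrix m m R)ˣ) (p : R[X]) (hp1 : aeval (B₁ : Matrix m m R) p = 0)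
    (hp2 : IsUnit (aeval (B₂ : Matrix (m ⊕ m) (m ⊕ m) R) p)) :
    ∃ A B : (Matrix n n R)ˣ,
      ((A * B * A⁻¹ * B⁻¹ : (Matrix n n R)ˣ) : Matrix n n R) = C := by
  set x₁ : Matrix m m R := V₂ - 1 - u with hx₁
  set x₂ : Matrix m m R := V₁ + W + u * (1 + x₁) with hx₂
  set w₂ : (Matrix (m ⊕ m) (m ⊕ m) R)ˣ := A₂ * B₂ * A₂⁻¹ * B₂⁻¹ with hw₂
  have hwB : w₂ * B₂ = A₂ * B₂ * A₂⁻¹ := by rw [hw₂]; group
  have hcj : Cj (B₂ : Matrix (m ⊕ m) (m ⊕ m) R)
      ((w₂ * B₂ : (Matrix (m ⊕ m) (m ⊕ m) R)ˣ) : Matrix (m ⊕ m) (m ⊕ m) R) := by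
    rw [hwB]; exact Cj_conj A₂ B₂
  obtain ⟨A, B, hAB⟩ := blockLU (1 : (Matrix m m R)ˣ) B₁ w₂ B₂
    (fromRows x₁ x₂) (fromCols (1 : Matrix m m R) (0 : Matrix m m R)) p (by rw [one_mul]; exact hp1)
    (Cj_unit (Cj_aeval hcj p) hp2) p hp1 hp2 (by
      rw [one_mul]
      obtain ⟨L, hL⟩ := hcj.symm
      refine ⟨rdiagU 1 L, ?_⟩
      show fromBlocks (1 : (Matrix m m R)ˣ).val 0 0 L.val * fromBlocks B₁.val 0 0 (w₂ * B₂).val =
        fromBlocks B₁.val 0 0 B₂.val * fromBlocks (1 : (Matrix m m R)ˣ).val 0 0 L.val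
      rw [fromBlocks_multiply, fromBlocks_multiply]
      have e : L.val * (w₂ * B₂).val = B₂.val * L.val := hL.eq
      rw [e]
      simp)
  set F : Matrix (m ⊕ m) n R := fromRows (U * C - U) (U * C * C - (1 + x₁) * (U * C)) with hF
  set S : Matrix (m ⊕ (m ⊕ m)) (m ⊕ (m ⊕ m)) R :=
    fromBlocks 1 0 (fromRows (-1 : Matrix m m R) (0 : Matrix m m R)) (fromBlocks 1 0 (-(1 + x₁)) 1)
    with hS
  set S' : Matrix (m ⊕ (m ⊕ m)) (m ⊕ (m ⊕ m)) R :=
    fromBlocks 1 0 (fromRows (1 : Matrix m m R) (1 + x₁)) (fromBlocks 1 0 (1 + x₁) 1)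
    with hS'
  have hSS' : S * S' = 1 := by
    rw [hS, hS', fromBlocks_multiply, fromBlocks_multiply, fromBlocks_mul_fromRows, ← fromBlocks_one]
    congr 1
    · simp
    · simp
    · rw [Matrix.mul_one]
      ext (i | i) j <;> simp
    · rw [Matrix.mul_zero, zero_add, ← fromBlocks_one]
      congr 1 <;> simp
  have hS'S : S' * S = 1 := by
    rw [hS, hS', fromBlocks_multiply, fromBlocks_multiply, fromBlocks_mul_fromRows, ← fromBlocks_one]
    congr 1
    · simp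
    · simp
    · rw [Matrix.mul_one]
      ext (i | i) j <;> simp
    · rw [Matrix.mul_zero, zero_add, ← fromBlocks_one]
      congr 1 <;> simp
  have hT : S * fromRows U (fromRows (U * C) (U * C * C)) = fromRows U F := by
    rw [hS, hF, fromBlocks_mul_fromRows, fromBlocks_mul_fromRows, fromRows_mul]
    congr 1
    · simp
    · rw [fr_add]
      congr 1
      · rw [Matrix.zero_mul, Matrix.one_mul, Matrix.neg_mul, Matrix.one_mul]; abel
      · rw [Matrix.zero_mul, Matrix.one_mul, Matrix.neg_mul]; abel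
  refine transport (fromRows U F) (T' * S') ?_ ?_ C A B ?_
  · rw [← hT]
    calc S * fromRows U (fromRows (U * C) (U * C * C)) * (T' * S')
        = S * (fromRows U (fromRows (U * C) (U * C * C)) * T') * S' := by
          simp only [Matrix.mul_assoc]
      _ = 1 := by rw [h1, Matrix.mul_one, hSS']
  · rw [← hT]
    calc T' * S' * (S * fromRows U (fromRows (U * C) (U * C * C)))
        = T' * (S' * S) * fromRows U (fromRows (U * C) (U * C * C)) := by
          simp only [Matrix.mul_assoc]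
      _ = 1 := by rw [hS'S, Matrix.mul_one, h2]
  · rw [hAB, hW]
    have hy : fromCols (1 : Matrix m m R) (0 : Matrix m m R) * F = U * C - U := by
      rw [hF, fromCols_mul_fromRows, Matrix.one_mul, Matrix.zero_mul, add_zero]
    have hz : fromBlocks 0 1 (-W) u * F = fromRows (U * C * C - (1 + x₁) * (U * C))
        (-W * (U * C - U) + u * (U * C * C - (1 + x₁) * (U * C))) := by
      rw [hF, fromBlocks_mul_fromRows, Matrix.zero_mul, Matrix.one_mul, zero_add]
    rw [fromBlocks_mul_fromRows, fromRows_mul, Matrix.add_mul, Matrix.mul_assoc _ _ F,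
      Matrix.mul_assoc _ _ F, hy, hz, Units.val_one, Matrix.one_mul, Matrix.mul_one, fromRows_mul,
      Matrix.one_mul, fromRows_mul]
    congr 1
    · abel
    · rw [fromRows_mul, fr_add, fr_add]
      have hV : V₂ = u + (1 + x₁) := by rw [hx₁]; abel
      have e1 : (U * C * C - (1 + x₁) * (U * C)) * C =
          W * U + V₁ * (U * C) + V₂ * (U * C * C) - (1 + x₁) * (U * C * C) := by
        rw [Matrix.sub_mul, hC, Matrix.mul_assoc (1 + x₁)]
      have e2 : (U * C - U) * C = U * C * C - U * C := Matrix.sub_mul _ _ _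
      rw [e1, e2]
      congr 1
      · rw [Matrix.mul_sub, Matrix.add_mul, Matrix.one_mul]; abel
      · rw [hV, hx₂]
        generalize U * C * C = c
        generalize U * C = b
        simp only [Matrix.mul_sub, Matrix.add_mul, Matrix.neg_mul, Matrix.mul_assoc]
        abel

/-- `[[-1, 1], [-4, 3]]` as a unit. -/
def exA : (Matrix (m ⊕ m) (m ⊕ m) R)ˣ where
  val := fromBlocks (-1) 1 (-4) 3
  inv := fromBlocks 3 (-1) 4 (-1)
  val_inv := by rw [fromBlocks_multiply, ← fromBlocks_one]; congr 1 <;> norm_num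
  inv_val := by rw [fromBlocks_multiply, ← fromBlocks_one]; congr 1 <;> norm_num

/-- `[[2, -1], [3, -1]]` as a unit. -/
def exB : (Matrix (m ⊕ m) (m ⊕ m) R)ˣ where
  val := fromBlocks 2 (-1) 3 (-1)
  inv := fromBlocks (-1) 1 (-3) 2
  val_inv := by rw [fromBlocks_multiply, ← fromBlocks_one]; congr 1 <;> norm_num
  inv_val := by rw [fromBlocks_multiply, ← fromBlocks_one]; congr 1 <;> norm_num

theorem exAB : ((exA * exB * exA⁻¹ * exB⁻¹ : (Matrix (m ⊕ m) (m ⊕ m) R)ˣ) :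
    Matrix (m ⊕ m) (m ⊕ m) R) = fromBlocks 0 1 (-1) 3 := by
  show fromBlocks (-1) 1 (-4) 3 * fromBlocks 2 (-1) 3 (-1) * fromBlocks 3 (-1) 4 (-1) *
    fromBlocks (-1) 1 (-3) 2 = _
  rw [fromBlocks_multiply, fromBlocks_multiply, fromBlocks_multiply]
  congr 1 <;> norm_num

theorem exB_unit : IsUnit (aeval ((exB : (Matrix (m ⊕ m) (m ⊕ m) R)ˣ) : Matrix (m ⊕ m) (m ⊕ m) R)
    (X - 1 : R[X])) := by
  rw [map_sub, aeval_X, map_one]
  show IsUnit (fromBlocks 2 (-1) 3 (-1) - 1 : Matrix (m ⊕ m) (m ⊕ m) R)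
  refine IsUnit.of_mul_eq_one (fromBlocks (-2) 1 (-3) 1) ?_
  rw [← fromBlocks_one, sub_eq_add_neg, fromBlocks_neg, fromBlocks_add, fromBlocks_multiply]
  congr 1 <;> norm_num

/-- The three block theorem with constant term `1`. -/
theorem triple_one (C : Matrix n n R) (U : Matrix m n R)
    (T' : Matrix n (m ⊕ (m ⊕ m)) R)
    (h1 : fromRows U (fromRows (U * C) (U * C * C)) * T' = 1)
    (h2 : T' * fromRows U (fromRows (U * C) (U * C * C)) = 1)
    (V₁ V₂ : Matrix m m R)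
    (hC : U * C * C * C = U + V₁ * (U * C) + V₂ * (U * C * C)) :
    ∃ A B : (Matrix n n R)ˣ,
      ((A * B * A⁻¹ * B⁻¹ : (Matrix n n R)ˣ) : Matrix n n R) = C :=
  triple C U T' h1 h2 V₁ V₂ 1 (by rw [Matrix.one_mul]; exact hC) 3 exA exB exAB 1 (X - 1)
    (by rw [map_sub, aeval_X, map_one, Units.val_one, sub_self]) exB_unit

/-- The three block theorem for a product of two commutators. -/
theorem triple_two (C : Matrix n n R) (U : Matrix m n R)
    (T' : Matrix n (m ⊕ (m ⊕ m)) R)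
    (h1 : fromRows U (fromRows (U * C) (U * C * C)) * T' = 1)
    (h2 : T' * fromRows U (fromRows (U * C) (U * C * C)) = 1)
    (V₁ V₂ : Matrix m m R) (P Q P' Q' S : (Matrix m m R)ˣ)
    (hQ : IsUnit (aeval (Q' : Matrix m m R) (Q : Matrix m m R).charpoly))
    (hS : IsUnit (aeval (Q : Matrix m m R) (S : Matrix m m R).charpoly))
    (hS' : IsUnit (aeval (Q' : Matrix m m R) (S : Matrix m m R).charpoly))
    (hC : U * C * C * C = (P * Q * P⁻¹ * Q⁻¹ * (P' * Q' * P'⁻¹ * Q'⁻¹) : (Matrix m m R)ˣ).val * U +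
      V₁ * (U * C) + V₂ * (U * C * C)) :
    ∃ A B : (Matrix n n R)ˣ,
      ((A * B * A⁻¹ * B⁻¹ : (Matrix n n R)ˣ) : Matrix n n R) = C := by
  obtain ⟨A₂, B₂, h, hB⟩ := two_partner P Q P' Q' _ (Matrix.aeval_self_charpoly _) hQ 0
  refine triple C U T' h1 h2 V₁ V₂ _ hC 0 A₂ B₂ h S _ (Matrix.aeval_self_charpoly _) ?_
  refine Cj_unit (Cj_aeval hB.symm _) ?_
  rw [aeval_diag]
  obtain ⟨a, ha⟩ := hS
  obtain ⟨b, hb⟩ := hS'
  rw [← ha, ← hb]
  exact (diagU a b).isUnit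

end Pool.Agent.H18.IC
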